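import Mathlib

set_option autoImplicit false

/-! The final inequalities (real numbers). -/

namespace KB30

/-- the bounds for `N1` and `k (N0 + N1)`, `c = 1 / (30 k)` -/
theorem Arith_aux {k p n N0 N1 : ℝ} (hk : 5 ≤ k) (hp : 1000 * k ^ 2 ≤ p)
    (hn1 : (k - 1 - 1 / (30 * k)) * p < n) (hn2 : n ≤ (k - 1 - 1 / (30 * k)) * p + 1)
    (h1 : (k - 1) * N1 ≤ n * ((k - 1) * p - n + k))
    (h3 : k * N0 + N1 ≤ k * p ^ 2 - p * n) :
    k * N1 ≤ p ^ 2 / 30 + k ^ 2 * p ∧ k * (N0 + N1) ≤ 31 / 30 * p ^ 2 + k ^ 2 * p := by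
  obtain ⟨c, hc⟩ : ∃ c : ℝ, c = 1 / (30 * k) := ⟨_, rfl⟩
  rw [← hc] at hn1 hn2
  have hk0 : 0 < k := by linarith
  have hkc : k * c = 1 / 30 := by
    rw [hc]
    field_simp
  have hc0 : 0 < c := by
    rw [hc]
    positivity
  have hp0 : 0 < p := by
    have : 0 < 1000 * k ^ 2 := by positivity
    linarith
  have hcp : 1 ≤ c * p := by
    have e1 : c * (1000 * k ^ 2) ≤ c * p := mul_le_mul_of_nonneg_left hp hc0.le
    have e2 : c * (1000 * k ^ 2) = 1000 / 30 * k := by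
      have : c * (1000 * k ^ 2) = 1000 * k * (k * c) := by ring
      rw [this, hkc]; ring
    linarith
  have hn0 : 0 ≤ n := by
    have e1 : c ≤ 1 := by nlinarith
    have e2 : 0 ≤ (k - 1 - c) * p := mul_nonneg (by linarith) hp0.le
    linarith
  have hnk : n ≤ (k - 1) * p := by
    have : (k - 1 - c) * p + 1 = (k - 1) * p - c * p + 1 := by ring
    linarith
  have hd : (k - 1) * p - n + k ≤ c * p + k := by
    have : (k - 1 - c) * p = (k - 1) * p - c * p := by ring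
    linarith
  have hcpk : 0 ≤ c * p + k := by positivity
  have h4 : n * ((k - 1) * p - n + k) ≤ ((k - 1) * p) * (c * p + k) :=
    (mul_le_mul_of_nonneg_left hd hn0).trans (mul_le_mul_of_nonneg_right hnk hcpk)
  have h5 : N1 ≤ p * (c * p + k) := by
    have e1 : (k - 1) * N1 ≤ (k - 1) * (p * (c * p + k)) := by
      have : ((k - 1) * p) * (c * p + k) = (k - 1) * (p * (c * p + k)) := by ring
      linarith
    exact le_of_mul_le_mul_left e1 (by linarith)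
  have h6 : k * N1 ≤ p ^ 2 / 30 + k ^ 2 * p := by
    have e1 : k * N1 ≤ k * (p * (c * p + k)) := mul_le_mul_of_nonneg_left h5 hk0.le
    have e2 : k * (p * (c * p + k)) = (k * c) * p ^ 2 + k ^ 2 * p := by ring
    rw [e2, hkc] at e1
    linarith
  refine ⟨h6, ?_⟩
  have h7 : p * ((k - 1 - c) * p) ≤ p * n := mul_le_mul_of_nonneg_left hn1.le hp0.le
  have h8 : k * (N0 + N1) ≤ (1 + c) * p ^ 2 + (k - 1) * N1 := by
    have e1 : p * ((k - 1 - c) * p) = k * p ^ 2 - (1 + c) * p ^ 2 := by ring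
    linarith
  have h9 : (k - 1) * N1 ≤ (k - 1) * (p * (c * p + k)) :=
    mul_le_mul_of_nonneg_left h5 (by linarith)
  have h10 : (1 + c) * p ^ 2 + (k - 1) * (p * (c * p + k)) =
      p ^ 2 + (k * c) * p ^ 2 + k ^ 2 * p - k * p := by ring
  rw [hkc] at h10
  have h11 : 0 ≤ k * p := by positivity
  linarith

/-- `c = 1 / (30 k)`, `n = A.card ∈ ((k-1-c) p, (k-1-c) p + 1]`. PROOF: `h1`: `(k-1) N1 ≤ n (c p + k) ≤ ((k-1) p)(c p + k)` (as
`(k - 1 - c) p + 1 ≤ (k - 1) p`), so `N1 ≤ p (c p + k)`. `h3`: `k (N0 + N1) ≤ k p^2 - n p + (k - 1) N1 ≤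
(1 + c) p ^ 2 + (k - 1) p (c p + k) `, so `(N0 + N1) ≤ (1/k + c) p ^ 2 + k p`, and `1/k + c ≤ 31/150`, `k p ≤ p^2 / 5000`. -/
theorem arith_S {k p n N0 N1 : ℝ} (hk : 5 ≤ k) (hp : 1000 * k ^ 2 ≤ p)
    (hn1 : (k - 1 - 1 / (30 * k)) * p < n) (hn2 : n ≤ (k - 1 - 1 / (30 * k)) * p + 1)
    (hN1 : 0 ≤ N1) (h1 : (k - 1) * N1 ≤ n * ((k - 1) * p - n + k))
    (h3 : k * N0 + N1 ≤ k * p ^ 2 - p * n) :
    N0 + N1 ≤ 0.21 * p ^ 2 := by
  obtain ⟨-, h⟩ := Arith_aux hk hp hn1 hn2 h1 h3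
  have hk0 : 0 < k := by linarith
  have hp0 : 0 < p := by
    have : 0 < 1000 * k ^ 2 := by positivity
    linarith
  have e1 : k ^ 2 * p ≤ p ^ 2 / 1000 := by
    have : 1000 * k ^ 2 * p ≤ p * p := mul_le_mul_of_nonneg_right hp hp0.le
    linarith
  by_contra hlt
  rw [not_le] at hlt
  have e2 : 5 * (0.21 * p ^ 2) ≤ k * (N0 + N1) :=
    mul_le_mul hk hlt.le (by positivity) hk0.le
  have e3 : 0 < p ^ 2 := by positivity
  linarith

/-- PROOF: with `x = m / p`: `x (1 - x) ≤ (N0 + N1) / p^2 ≤ 0.21` and `x < 1/2` give `x ≤ 0.3`, so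
`x (1 + x) / 2 ≤ (13/14) x (1 - x)` and `N0 ≤ m (m + p) / 2 ≤ (13/14) (N0 + N1)`. By `h2`,
`k N0 ≥ k p^2 - p n - (k-1) N1 ≥ (1 + c) p^2 - p - (k - 1) N1`, by `h3`
`k (N0 + N1) ≤ (1 + c) p^2 + (k - 1) N1`, `N1 ≤ p (c p + k)`: so `(1 + c) p^2 - p - (k-1) N1 ≤ (13/14) ((1 + c) p^2 + (k-1) N1)`, i.e.
`(1 + c) p^2 / 14 ≤ p + (27/14) (k - 1) p (c p + k)`; `(k - 1) c < 1/30`, so the right side is at most `(27/420) p^2 + 2 k^2 p + p`,
and `1/14 - 27/420 = 3/420 = 1/140`: `p^2 / 140 ≤ 2 k^2 p + p` is false for `p ≥ 1000 k^2`. -/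
theorem arith_final {k p n N0 N1 m : ℝ} (hk : 5 ≤ k) (hp : 1000 * k ^ 2 ≤ p)
    (hn1 : (k - 1 - 1 / (30 * k)) * p < n) (hn2 : n ≤ (k - 1 - 1 / (30 * k)) * p + 1)
    (hN1 : 0 ≤ N1) (h1 : (k - 1) * N1 ≤ n * ((k - 1) * p - n + k))
    (h2 : k * p ^ 2 - p * n ≤ k * N0 + (k - 1) * N1)
    (h3 : k * N0 + N1 ≤ k * p ^ 2 - p * n) (hm0 : 0 ≤ m) (hm : 2 * m < p)
    (h4 : m * (p - m) ≤ N0 + N1) (h5 : 2 * N0 ≤ m * (m + p)) : False := by
  obtain ⟨h, -⟩ := Arith_aux hk hp hn1 hn2 h1 h3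
  have hS := arith_S hk hp hn1 hn2 hN1 h1 h3
  have hk0 : 0 < k := by linarith
  have hpk : 0 < 1000 * k ^ 2 := by positivity
  have hp0 : 0 < p := by linarith
  -- `m ≤ 0.3 p`
  have hm3 : m ≤ 0.3 * p := by
    by_contra hlt
    rw [not_le] at hlt
    have e1 : 0 < (m - 0.3 * p) * (0.7 * p - m) := mul_pos (by linarith) (by linarith)
    have e2 : (m - 0.3 * p) * (0.7 * p - m) = m * (p - m) - 0.21 * p ^ 2 := by ring
    linarith
  have h6 : 7 * (m * (m + p)) ≤ 13 * (m * (p - m)) := by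
    have e1 : 0 ≤ m * (6 * p - 20 * m) := mul_nonneg hm0 (by linarith)
    have e2 : m * (6 * p - 20 * m) = 13 * (m * (p - m)) - 7 * (m * (m + p)) := by ring
    linarith
  have h7 : N0 ≤ 13 * N1 := by linarith
  have h8 : k * N0 ≤ k * (13 * N1) := mul_le_mul_of_nonneg_left h7 hk0.le
  have h9 : p * n ≤ p * ((k - 1 - 1 / (30 * k)) * p + 1) := mul_le_mul_of_nonneg_left hn2 hp0.le
  have h10 : p * ((k - 1 - 1 / (30 * k)) * p + 1) =
      k * p ^ 2 - p ^ 2 - 1 / (30 * k) * p ^ 2 + p := by ring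
  have h11 : 0 ≤ 1 / (30 * k) * p ^ 2 := by positivity
  have e1 : k ^ 2 * p ≤ p ^ 2 / 1000 := by
    have : 1000 * k ^ 2 * p ≤ p * p := mul_le_mul_of_nonneg_right hp hp0.le
    linarith
  have e2 : p ≤ p ^ 2 / 1000 := by
    have e3 : (1 : ℝ) ≤ k ^ 2 := by nlinarith
    have e4 : 1 * p ≤ k ^ 2 * p := mul_le_mul_of_nonneg_right e3 hp0.le
    linarith
  have e3 : 0 < p ^ 2 := by positivity
  linarith

end KB30
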