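import Pool.Agent.W_3ac1bb_h30.Defs

set_option autoImplicit false

namespace KB30

open MvPolynomial

variable {K : Type} [Field K]

theorem Interp_dirD_mul (v z : Pt K) (f g : MP K) :
    dirD v z (f * g) = dirD v z f * eval z g + eval z f * dirD v z g := by
  unfold dirD
  rw [pderiv_mul, pderiv_mul]
  simp only [map_add, map_mul]
  ring

theorem Interp_dirD_add (v z : Pt K) (f g : MP K) :
    dirD v z (f + g) = dirD v z f + dirD v z g := by
  unfold dirD
  simp only [map_add]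
  ring

theorem Interp_dirD_zero (v z : Pt K) : dirD v z (0 : MP K) = 0 := by
  unfold dirD
  simp

theorem Interp_dirD_C (v z : Pt K) (c : K) : dirD v z (C c : MP K) = 0 := by
  unfold dirD
  rw [pderiv_C, pderiv_C]
  simp

theorem Interp_dirD_sum (v z : Pt K) {ι : Type} (s : Finset ι) (f : ι → MP K) :
    dirD v z (∑ i ∈ s, f i) = ∑ i ∈ s, dirD v z (f i) := by
  classical
  induction s using Finset.induction_on with
  | empty => simp [Interp_dirD_zero]
  | insert a s ha ih => rw [Finset.sum_insert ha, Finset.sum_insert ha, Interp_dirD_add, ih]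

theorem Interp_sep (Z : Finset (Pt K)) (z : Pt K) :
    ∃ L : MP K, eval z L ≠ 0 ∧ ∀ z' ∈ Z, z' ≠ z → eval z' L = 0 := by
  classical
  induction Z using Finset.induction_on with
  | empty => exact ⟨1, by simp, by simp⟩
  | insert w Z _ ih =>
    obtain ⟨L, h1, h2⟩ := ih
    by_cases hw : w = z
    · refine ⟨L, h1, ?_⟩
      intro z' hz' hne
      rw [Finset.mem_insert] at hz'
      rcases hz' with h | h
      · exact absurd (h.trans hw) hne
      · exact h2 z' h hne
    · obtain ⟨i, hi⟩ := Function.ne_iff.1 hw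
      refine ⟨(X i - C (w i)) * L, ?_, ?_⟩
      · rw [map_mul, map_sub, eval_X, eval_C]
        exact mul_ne_zero (sub_ne_zero.2 (Ne.symm hi)) h1
      · intro z' hz' hne
        rw [Finset.mem_insert] at hz'
        rw [map_mul, map_sub, eval_X, eval_C]
        rcases hz' with h | h
        · rw [h, sub_self, zero_mul]
        · rw [h2 z' h hne, mul_zero]

/-- PROOF: for `z ≠ z'` there is a coordinate `i` with `z i ≠ z' i`; `L_z = ∏ z' ∈ Z \ {z}, (X i - C (z' i))`
vanishes on `Z \ {z}` and not at `z`; take `∑ φ z / L_z(z) * L_z`. -/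
theorem eval_surj (Z : Finset (Pt K)) (φ : Pt K → K) : ∃ P : MP K, ∀ z ∈ Z, eval z P = φ z := by
  choose L h1 h2 using Interp_sep Z
  refine ⟨∑ z ∈ Z, C (φ z / eval z (L z)) * L z, ?_⟩
  intro z hz
  rw [map_sum, Finset.sum_eq_single_of_mem z hz]
  · rw [map_mul, eval_C, div_mul_cancel₀ _ (h1 z)]
  · intro w _ hw
    rw [map_mul, h2 w z hz (Ne.symm hw), mul_zero]

theorem Interp_lin (z v : Pt K) (hv : v ≠ 0) : ∃ l : MP K, eval z l = 0 ∧ dirD v z l = 1 := by
  obtain ⟨i, hi⟩ := Function.ne_iff.1 hv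
  rw [Pi.zero_apply] at hi
  refine ⟨C (v i)⁻¹ * (X i - C (z i)), ?_, ?_⟩
  · rw [map_mul, map_sub, eval_X, eval_C, eval_C, sub_self, mul_zero]
  · rw [Interp_dirD_mul, Interp_dirD_C, zero_mul, zero_add, eval_C]
    have h : dirD v z (X i - C (z i) : MP K) = v i := by
      unfold dirD
      simp only [map_sub, pderiv_X, pderiv_C]
      fin_cases i <;> simp
    rw [h]
    exact inv_mul_cancel₀ hi

theorem Interp_jet (Z : Finset (Pt K)) (z v : Pt K) (hv : v ≠ 0) (a b : K) :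
    ∃ P : MP K, (eval z P = a ∧ dirD v z P = b) ∧
      ∀ z' ∈ Z, z' ≠ z → eval z' P = 0 ∧ ∀ w, dirD w z' P = 0 := by
  obtain ⟨L, h1, h2⟩ := Interp_sep Z z
  obtain ⟨l, h3, h4⟩ := Interp_lin z v hv
  obtain ⟨M, hM⟩ : ∃ M : MP K, M = L * L := ⟨_, rfl⟩
  have hM1 : eval z M ≠ 0 := by
    rw [hM, map_mul]
    exact mul_ne_zero h1 h1
  obtain ⟨α, hα⟩ : ∃ α : K, α = a / eval z M := ⟨_, rfl⟩
  obtain ⟨β, hβ⟩ : ∃ β : K, β = (b - dirD v z M * α) / eval z M := ⟨_, rfl⟩
  have hl : eval z (C α + C β * l) = α := by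
    rw [map_add, map_mul, eval_C, eval_C, h3, mul_zero, add_zero]
  refine ⟨M * (C α + C β * l), ⟨?_, ?_⟩, ?_⟩
  · rw [map_mul, hl, hα, mul_div_cancel₀ _ hM1]
  · have hl2 : dirD v z (C α + C β * l) = β := by
      rw [Interp_dirD_add, Interp_dirD_mul, Interp_dirD_C, Interp_dirD_C, h4, eval_C, zero_mul,
        zero_add, zero_add, mul_one]
    rw [Interp_dirD_mul, hl, hl2, hβ, mul_div_cancel₀ _ hM1]
    ring
  · intro z' hz' hne
    have h5 := h2 z' hz' hne
    have hM2 : eval z' M = 0 := by rw [hM, map_mul, h5, mul_zero]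
    refine ⟨by rw [map_mul, hM2, zero_mul], fun w => ?_⟩
    have hM3 : dirD w z' M = 0 := by rw [hM, Interp_dirD_mul, h5, mul_zero, zero_mul, add_zero]
    rw [Interp_dirD_mul, hM2, hM3, zero_mul, zero_mul, add_zero]

/-- PROOF: with `M_z = L_z ^ 2` (vanishing with its derivatives on `Z \ {z}`, nonzero at `z`), and
`l_z = C (1 / v i) * (X i - C (z i))` where `v z i ≠ 0` (value `0`, derivative `1` in direction `v z` at `z`): use
`∑ z, M_z * (C a_z + C b_z * l_z)` with `a_z = φ z / M_z(z)`, `b_z` determined by `ψ z`. `dirD` is a derivation: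
`dirD v z (f g) = dirD v z f * eval z g + eval z f * dirD v z g`. -/
theorem jet_surj (Z : Finset (Pt K)) (v : Pt K → Pt K) (hv : ∀ z ∈ Z, v z ≠ 0)
    (φ ψ : Pt K → K) : ∃ P : MP K, ∀ z ∈ Z, eval z P = φ z ∧ dirD (v z) z P = ψ z := by
  have h : ∀ z : Pt K, ∃ P : MP K, z ∈ Z → (eval z P = φ z ∧ dirD (v z) z P = ψ z) ∧
      ∀ z' ∈ Z, z' ≠ z → eval z' P = 0 ∧ ∀ w, dirD w z' P = 0 := by
    intro z
    by_cases hz : z ∈ Z
    · obtain ⟨P, hP⟩ := Interp_jet Z z (v z) (hv z hz) (φ z) (ψ z)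
      exact ⟨P, fun _ => hP⟩
    · exact ⟨0, fun h => absurd h hz⟩
  choose P hP using h
  refine ⟨∑ z ∈ Z, P z, ?_⟩
  intro z hz
  constructor
  · rw [map_sum, Finset.sum_eq_single_of_mem z hz, (hP z hz).1.1]
    intro w hw hne
    exact ((hP w hw).2 z hz (Ne.symm hne)).1
  · rw [Interp_dirD_sum, Finset.sum_eq_single_of_mem z hz, (hP z hz).1.2]
    intro w hw hne
    exact ((hP w hw).2 z hz (Ne.symm hne)).2 _

end KB30
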