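import Pool.Agent.W_3ac1bb_h30.BezCore
import Pool.Agent.W_3ac1bb_h30.Interp

set_option autoImplicit false

namespace KB30

open MvPolynomial

variable {K : Type} [Field K]

/-- an irreducible polynomial which does not divide `f` is coprime to `f` (unique factorization:
`Irreducible.prime`) -/
theorem cop_of_irreducible {q f : MP K} (hq : Irreducible q) (hqf : ¬ q ∣ f) : Cop q f :=
  fun _ hb => (hq.prime.dvd_or_dvd hb).resolve_left hqf

theorem Bez_top {X : Type} [AddCommGroup X] [Module K X] [Module.Finite K X]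
    (Θ : MP K →ₗ[K] X) (hs : Function.Surjective Θ) :
    ∃ e0 : ℕ, ∀ e, e0 ≤ e → (Q K e).map Θ = ⊤ := by
  choose P hP using fun i => hs (Module.finBasis K X i)
  refine ⟨Finset.univ.sup fun i => (P i).totalDegree, fun e he => ?_⟩
  rw [eq_top_iff, ← (Module.finBasis K X).span_eq, Submodule.span_le]
  rintro _ ⟨i, rfl⟩
  exact ⟨P i, mem_Q.2 ((Finset.le_sup (f := fun i => (P i).totalDegree) (Finset.mem_univ i)).trans he),
    hP i⟩

theorem Bez_dirD_mul (v z : Pt K) (f g : MP K) :
    dirD v z (f * g) = dirD v z f * eval z g + eval z f * dirD v z g := by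
  simp only [dirD, Derivation.leibniz, smul_eq_mul, map_add, map_mul]
  ring

/-- PROOF: `bez_core` with `Θ = evZ Z`; `map (evZ Z) (Q e) = ⊤` for large `e` by `eval_surj` (`Z` is finite: take
`e` larger than the degrees of finitely many interpolation polynomials), of dimension `Z.card`. -/
theorem bez1 {q f : MP K} (hq : Irreducible q) (hf : f ≠ 0) (hqf : ¬ q ∣ f) (Z : Finset (Pt K))
    (hZ1 : ∀ z ∈ Z, eval z q = 0) (hZ2 : ∀ z ∈ Z, eval z f = 0) :
    Z.card ≤ q.totalDegree * f.totalDegree := by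
  classical
  have hs : Function.Surjective (evZ Z) := by
    intro φ
    obtain ⟨P, hP⟩ := eval_surj Z (fun z => if hz : z ∈ Z then φ ⟨z, hz⟩ else 0)
    refine ⟨P, ?_⟩
    ext z
    rw [evZ_apply, hP z.1 z.2, dif_pos z.2]
  obtain ⟨e0, he0⟩ := Bez_top (evZ Z) hs
  have h1 := bez_core hq.ne_zero hf (cop_of_irreducible hq hqf)
    (max e0 (q.totalDegree + f.totalDegree)) (le_max_right _ _) (evZ Z)
    (fun a => by ext z; rw [evZ_apply, map_mul, hZ1 z.1 z.2, zero_mul]; rfl)
    (fun a => by ext z; rw [evZ_apply, map_mul, hZ2 z.1 z.2, zero_mul]; rfl)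
  rw [he0 _ (le_max_left _ _), finrank_top, Module.finrank_fintype_fun_eq_card,
    Fintype.card_coe] at h1
  exact h1

/-- values and directional derivatives -/
noncomputable def Bez_jet (Z : Finset (Pt K)) (v : Pt K → Pt K) : MP K →ₗ[K] (Z → K) × (Z → K) where
  toFun P := (fun z => eval z.1 P, fun z => dirD (v z.1) z.1 P)
  map_add' P R := by
    refine Prod.ext ?_ ?_
    · funext z
      simp
    · funext z
      simp only [dirD, map_add, Prod.snd_add, Pi.add_apply]
      ring
  map_smul' c P := by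
    refine Prod.ext ?_ ?_
    · funext z
      simp [smul_eval]
    · funext z
      simp only [dirD, Derivation.map_smul, smul_eval, RingHom.id_apply, Prod.smul_snd,
        Pi.smul_apply, smul_eq_mul]
      ring

/-- PROOF: as `bez1`, with `Θ : MP K → (Z → K) × (Z → K)`, `P ↦ (values, dirD (v z) z P)`, which kills the
multiples of `q` and `f`; surjective on `Q e` for large `e` by `jet_surj`. -/
theorem bez2 {q f : MP K} (hq : Irreducible q) (hf : f ≠ 0) (hqf : ¬ q ∣ f) (Z : Finset (Pt K))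
    (v : Pt K → Pt K) (hv : ∀ z ∈ Z, v z ≠ 0)
    (hZ1 : ∀ z ∈ Z, eval z q = 0 ∧ dirD (v z) z q = 0)
    (hZ2 : ∀ z ∈ Z, eval z f = 0 ∧ dirD (v z) z f = 0) :
    2 * Z.card ≤ q.totalDegree * f.totalDegree := by
  classical
  have hs : Function.Surjective (Bez_jet Z v) := by
    rintro ⟨φ, ψ⟩
    obtain ⟨P, hP⟩ := jet_surj Z v hv (fun z => if hz : z ∈ Z then φ ⟨z, hz⟩ else 0)
      (fun z => if hz : z ∈ Z then ψ ⟨z, hz⟩ else 0)
    refine ⟨P, Prod.ext ?_ ?_⟩
    · funext z
      show eval z.1 P = φ z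
      rw [(hP z.1 z.2).1, dif_pos z.2]
    · funext z
      show dirD (v z.1) z.1 P = ψ z
      rw [(hP z.1 z.2).2, dif_pos z.2]
  obtain ⟨e0, he0⟩ := Bez_top (Bez_jet Z v) hs
  have hkill : ∀ g : MP K, (∀ z ∈ Z, eval z g = 0 ∧ dirD (v z) z g = 0) →
      ∀ a, Bez_jet Z v (g * a) = 0 := by
    intro g hg a
    refine Prod.ext ?_ ?_
    · funext z
      show eval z.1 (g * a) = 0
      rw [map_mul, (hg z.1 z.2).1, zero_mul]
    · funext z
      show dirD (v z.1) z.1 (g * a) = 0
      rw [Bez_dirD_mul, (hg z.1 z.2).1, (hg z.1 z.2).2, zero_mul, zero_mul, add_zero]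
  have h1 := bez_core hq.ne_zero hf (cop_of_irreducible hq hqf)
    (max e0 (q.totalDegree + f.totalDegree)) (le_max_right _ _) (Bez_jet Z v)
    (hkill q hZ1) (hkill f hZ2)
  rw [he0 _ (le_max_left _ _), finrank_top, Module.finrank_prod,
    Module.finrank_fintype_fun_eq_card, Fintype.card_coe] at h1
  omega

end KB30
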