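import Pool.Agent.W_3ac1bb_h30.DimQ

set_option autoImplicit false

namespace KB30

open MvPolynomial

variable {K : Type} [Field K]

instance BezCore_fin (e : ℕ) : Module.Finite K (Q K e) := inferInstance

theorem BezCore_map_le {f : MP K} (e d : ℕ) (hd : f.totalDegree + d ≤ e) :
    (Q K d).map (LinearMap.mulLeft K f) ≤ Q K e := by
  rintro _ ⟨P, hP, rfl⟩
  rw [LinearMap.mulLeft_apply]
  exact Q_mono hd (mul_mem_Q (mem_Q.2 le_rfl) hP)

theorem BezCore_inf {f1 f2 : MP K} (h1 : f1 ≠ 0) (h2 : f2 ≠ 0) (hc : Cop f1 f2) (a b n : ℕ)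
    (ha : a = n + f2.totalDegree) (hb : b = n + f1.totalDegree) :
    (Q K a).map (LinearMap.mulLeft K f1) ⊓ (Q K b).map (LinearMap.mulLeft K f2) ≤
      (Q K n).map (LinearMap.mulLeft K (f1 * f2)) := by
  rintro x ⟨⟨P, hP, rfl⟩, ⟨R, hR, hPR⟩⟩
  rw [LinearMap.mulLeft_apply, LinearMap.mulLeft_apply] at hPR
  obtain ⟨c, rfl⟩ := hc R ⟨P, hPR⟩
  refine ⟨c, ?_, ?_⟩
  · rw [hb, add_comm] at hR
    exact (mul_mem_Q_iff h1 n).1 hR
  · rw [LinearMap.mulLeft_apply, LinearMap.mulLeft_apply, ← hPR]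
    ring

/-- Bezout by dimension counting. PROOF: `d_i = deg f_i`. `Q e` is finite dimensional;
`finrank (map Θ (Q e)) + finrank (ker ⊓ Q e) = finrank (Q e)` and the kernel contains
`U = f1 Q (e - d1) ⊔ f2 Q (e - d2)` (images of `LinearMap.mulLeft`), which is inside `Q e`. `finrank U` =
sum of the two dimensions minus the dimension of the intersection
(`Submodule.finrank_sup_add_finrank_inf_eq`), and the intersection is (contained in)
`f1 f2 Q (e - d1 - d2)`: `f1 a = f2 b` implies `f1 ∣ f2 b`, `f1 ∣ b`, `b = f1 c`, and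
`f1 f2 c` in `Q e` gives `c ∈ Q (e - d1 - d2)` (`mul_mem_Q_iff`). By `finrank_Q`, `finrank_map_mul`:
twice the result is `(e+1)(e+2) - (e-d1+1)(e-d1+2) - (e-d2+1)(e-d2+2) + (e-d1-d2+1)(e-d1-d2+2) = 2 d1 d2`. -/
theorem bez_core {f1 f2 : MP K} (h1 : f1 ≠ 0) (h2 : f2 ≠ 0) (hc : Cop f1 f2) (e : ℕ)
    (he : f1.totalDegree + f2.totalDegree ≤ e) {X : Type} [AddCommGroup X] [Module K X]
    (Θ : MP K →ₗ[K] X) (hΘ1 : ∀ a, Θ (f1 * a) = 0) (hΘ2 : ∀ a, Θ (f2 * a) = 0) :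
    Module.finrank K ((Q K e).map Θ) ≤ f1.totalDegree * f2.totalDegree := by
  obtain ⟨n, hn⟩ : ∃ n, e = f1.totalDegree + f2.totalDegree + n := ⟨_, (Nat.add_sub_cancel' he).symm⟩
  obtain ⟨d1, hd1⟩ : ∃ d1, d1 = f1.totalDegree := ⟨_, rfl⟩
  obtain ⟨d2, hd2⟩ : ∃ d2, d2 = f2.totalDegree := ⟨_, rfl⟩
  obtain ⟨U1, hU1⟩ : ∃ U1, U1 = (Q K (n + d2)).map (LinearMap.mulLeft K f1) := ⟨_, rfl⟩
  obtain ⟨U2, hU2⟩ : ∃ U2, U2 = (Q K (n + d1)).map (LinearMap.mulLeft K f2) := ⟨_, rfl⟩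
  obtain ⟨U3, hU3⟩ : ∃ U3, U3 = (Q K n).map (LinearMap.mulLeft K (f1 * f2)) := ⟨_, rfl⟩
  have i1 : Module.Finite K U1 := by rw [hU1]; infer_instance
  have i2 : Module.Finite K U2 := by rw [hU2]; infer_instance
  have i3 : Module.Finite K U3 := by rw [hU3]; infer_instance
  have r1 : Module.finrank K U1 = Module.finrank K (Q K (n + d2)) := by
    rw [hU1]; exact finrank_map_mul h1 _
  have r2 : Module.finrank K U2 = Module.finrank K (Q K (n + d1)) := by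
    rw [hU2]; exact finrank_map_mul h2 _
  have r3 : Module.finrank K U3 = Module.finrank K (Q K n) := by
    rw [hU3]; exact finrank_map_mul (mul_ne_zero h1 h2) _
  have hinf : U1 ⊓ U2 ≤ U3 := by
    rw [hU1, hU2, hU3]
    exact BezCore_inf h1 h2 hc _ _ n (by rw [hd2]) (by rw [hd1])
  have hr : Module.finrank K ↥(U1 ⊓ U2) ≤ Module.finrank K U3 := Submodule.finrank_mono hinf
  have hsum := Submodule.finrank_sup_add_finrank_inf_eq U1 U2
  have hUe : U1 ⊔ U2 ≤ Q K e := by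
    rw [hU1, hU2]
    refine sup_le (BezCore_map_le _ _ ?_) (BezCore_map_le _ _ ?_)
    · omega
    · omega
  have hker : U1 ⊔ U2 ≤ LinearMap.ker Θ := by
    rw [hU1, hU2]
    refine sup_le ?_ ?_
    · rintro _ ⟨P, _, rfl⟩
      exact hΘ1 P
    · rintro _ ⟨P, _, rfl⟩
      exact hΘ2 P
  -- rank-nullity on `Q e`
  have hrn := (Θ.domRestrict (Q K e)).finrank_range_add_finrank_ker
  have hrange : LinearMap.range (Θ.domRestrict (Q K e)) = (Q K e).map Θ := by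
    rw [LinearMap.range_domRestrict]
  have hk2 : Module.finrank K ↥(U1 ⊔ U2) ≤ Module.finrank K (LinearMap.ker (Θ.domRestrict (Q K e))) := by
    have hle : (U1 ⊔ U2).comap (Q K e).subtype ≤ LinearMap.ker (Θ.domRestrict (Q K e)) := by
      intro x hx
      exact hker hx
    have h5 : Module.finrank K ↥((U1 ⊔ U2).comap (Q K e).subtype) = Module.finrank K ↥(U1 ⊔ U2) := by
      exact LinearEquiv.finrank_eq (Submodule.comapSubtypeEquivOfLe hUe)
    rw [← h5]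
    exact Submodule.finrank_mono hle
  rw [hrange] at hrn
  have q1 := finrank_Q (K := K) (n + d2)
  have q2 := finrank_Q (K := K) (n + d1)
  have q3 := finrank_Q (K := K) n
  have q4 := finrank_Q (K := K) e
  rw [hn, ← hd1, ← hd2] at q4
  rw [← hd1, ← hd2]
  have h6 : 2 * Module.finrank K ((Q K e).map Θ) + (n + d2 + 1) * (n + d2 + 2) +
      (n + d1 + 1) * (n + d1 + 2) ≤ (d1 + d2 + n + 1) * (d1 + d2 + n + 2) + (n + 1) * (n + 2) := by
    rw [← q1, ← q2, ← q3, ← q4, ← r1, ← r2, ← r3]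
    rw [hn, ← hd1, ← hd2] at hrn hk2 ⊢
    omega
  nlinarith

end KB30
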