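import Pool.Agent.W_3ac1bb_h30.BezCore

set_option autoImplicit false

namespace KB30

open MvPolynomial

variable {K : Type} [Field K]

theorem BezRho_lin_deg (μ : K) : (lin μ : MP K).totalDegree ≤ 1 := by
  unfold lin
  refine (totalDegree_sub _ _).trans (max_le ?_ ?_)
  · rw [totalDegree_X]
  · refine (totalDegree_mul _ _).trans ?_
    rw [totalDegree_C, totalDegree_X]

theorem BezRho_pow_mem (μ : K) {i e : ℕ} (h : i ≤ e) : (lin μ : MP K) ^ i ∈ Q K e := by
  rw [mem_Q]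
  refine (totalDegree_pow _ _).trans ?_
  calc i * (lin μ : MP K).totalDegree ≤ i * 1 := Nat.mul_le_mul_left _ (BezRho_lin_deg μ)
    _ ≤ e := by omega

/-- Elimination. PROOF: `I = Ideal.span {f1, f2}`, `Θ` the quotient map `MP K → MP K ⧸ I` as a linear map
(`(Ideal.Quotient.mkₐ K I).toLinearMap`). With `n = d1 d2`, `e = d1 + d2 + n`: the powers
`(lin μ) ^ i`, `i ≤ n`, are in `Q e` (`totalDegree_pow`), their images are in a space of dimension `≤ n`
(`bez_core`), so there is a nontrivial relation `∑ c_i (lin μ) ^ i ∈ I`; `R = ∑ c_i X ^ i`. Membership in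
`Ideal.span {f1, f2}`: `Ideal.mem_span_pair`. -/
theorem bez_rho {f1 f2 : MP K} (h1 : f1 ≠ 0) (h2 : f2 ≠ 0) (hc : Cop f1 f2) (μ : K) :
    ∃ R : Polynomial K, R ≠ 0 ∧ ∃ α β : MP K, Polynomial.aeval (lin μ) R = α * f1 + β * f2 := by
  obtain ⟨n, hn⟩ : ∃ n, n = f1.totalDegree * f2.totalDegree := ⟨_, rfl⟩
  obtain ⟨e, he⟩ : ∃ e, e = f1.totalDegree + f2.totalDegree + n := ⟨_, rfl⟩
  obtain ⟨I, hI⟩ : ∃ I : Ideal (MP K), I = Ideal.span {f1, f2} := ⟨_, rfl⟩
  obtain ⟨Θ, hΘ⟩ : ∃ Θ : MP K →ₗ[K] (MP K ⧸ I), Θ = (Ideal.Quotient.mkₐ K I).toLinearMap :=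
    ⟨_, rfl⟩
  have hΘa : ∀ x, Θ x = 0 ↔ x ∈ I := by
    intro x
    rw [hΘ]
    exact Ideal.Quotient.eq_zero_iff_mem
  have hf1 : f1 ∈ I := by
    rw [hI]
    exact Ideal.subset_span (by simp)
  have hf2 : f2 ∈ I := by
    rw [hI]
    exact Ideal.subset_span (by simp)
  have hdim := bez_core h1 h2 hc e (by omega) Θ
    (fun a => (hΘa _).2 (I.mul_mem_right a hf1)) (fun a => (hΘa _).2 (I.mul_mem_right a hf2))
  rw [← hn] at hdim
  have hmem : ∀ i : Fin (n + 1), Θ ((lin μ : MP K) ^ (i : ℕ)) ∈ (Q K e).map Θ := fun i =>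
    Submodule.mem_map_of_mem (BezRho_pow_mem μ (by omega))
  have hdep : ¬ LinearIndependent K
      (fun i : Fin (n + 1) => (⟨Θ ((lin μ : MP K) ^ (i : ℕ)), hmem i⟩ : (Q K e).map Θ)) := by
    intro hli
    have h3 := hli.fintype_card_le_finrank
    rw [Fintype.card_fin] at h3
    omega
  obtain ⟨g, hg, i, hi⟩ := Fintype.not_linearIndependent_iff.1 hdep
  refine ⟨∑ j : Fin (n + 1), Polynomial.C (g j) * Polynomial.X ^ (j : ℕ), ?_, ?_⟩
  · intro h0
    have h3 := congrArg (fun P : Polynomial K => P.coeff (i : ℕ)) h0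
    simp only [Polynomial.finsetSum_coeff, Polynomial.coeff_C_mul_X_pow, Polynomial.coeff_zero] at h3
    rw [Finset.sum_eq_single i] at h3
    · rw [if_pos rfl] at h3
      exact hi h3
    · intro j _ hj
      rw [if_neg]
      intro h4
      exact hj (Fin.ext h4.symm)
    · intro h4
      exact absurd (Finset.mem_univ i) h4
  · have h3 : Polynomial.aeval (lin μ : MP K)
        (∑ j : Fin (n + 1), Polynomial.C (g j) * Polynomial.X ^ (j : ℕ)) =
        ∑ j : Fin (n + 1), g j • (lin μ : MP K) ^ (j : ℕ) := by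
      rw [map_sum]
      refine Finset.sum_congr rfl fun j _ => ?_
      rw [map_mul, map_pow, Polynomial.aeval_C, Polynomial.aeval_X, Algebra.smul_def]
    have h4 : (∑ j : Fin (n + 1), g j • (lin μ : MP K) ^ (j : ℕ)) ∈ I := by
      rw [← hΘa, map_sum]
      have h5 := congrArg (fun x : (Q K e).map Θ => (x : MP K ⧸ I)) hg
      simp only [Submodule.coe_sum, Submodule.coe_smul, Submodule.coe_zero] at h5
      rw [← h5]
      refine Finset.sum_congr rfl fun j _ => ?_
      rw [map_smul]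
    rw [hI, Ideal.mem_span_pair] at h4
    obtain ⟨α, β, h5⟩ := h4
    exact ⟨α, β, by rw [h3, h5]⟩

end KB30
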