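import Pool.Agent.W_3ac1bb_h30.Defs

set_option autoImplicit false

/-! Counting of the lines by the number of points of `A`. -/

namespace KB30

variable {p k : ℕ} [Fact p.Prime] {A : Finset (Fin 2 → ZMod p)}

/-- number of empty lines (not vertical) -/
def N0 (A : Finset (Fin 2 → ZMod p)) : ℕ :=
  (Finset.univ.filter fun s : Fin 2 → ZMod p => F A s = 0).card

/-- number of lines with `0 < F < k` (not vertical) -/
def N1 (k : ℕ) (A : Finset (Fin 2 → ZMod p)) : ℕ :=
  (Finset.univ.filter fun s : Fin 2 → ZMod p => 0 < F A s ∧ F A s < k).card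

/-- the line `y = u x + t` is `- u x + y = t` -/
theorem F_le (hA : Bdd p k A) (s : Fin 2 → ZMod p) : F A s ≤ k := by
  have h := hA (-(s 1)) 1 (s 0) (Or.inr one_ne_zero)
  have e : (A.filter fun v => -(s 1) * v 0 + 1 * v 1 = s 0) =
      A.filter fun v => v 1 - s 1 * v 0 = s 0 := by
    refine Finset.filter_congr fun v _ => ?_
    have : -(s 1) * v 0 + 1 * v 1 = v 1 - s 1 * v 0 := by ring
    rw [this]
  rw [e] at h
  exact h

/-- the lines through a point -/
theorem Count_lines (v : Fin 2 → ZMod p) :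
    (Finset.univ.filter fun s : Fin 2 → ZMod p => v 1 - s 1 * v 0 = s 0).card = p := by
  have e : (Finset.univ.filter fun s : Fin 2 → ZMod p => v 1 - s 1 * v 0 = s 0) =
      Finset.univ.image fun u : ZMod p => ![v 1 - u * v 0, u] := by
    ext s
    simp only [Finset.mem_filter, Finset.mem_univ, true_and, Finset.mem_image]
    constructor
    · intro h
      refine ⟨s 1, ?_⟩
      funext i
      fin_cases i
      · exact h
      · rfl
    · rintro ⟨u, rfl⟩
      rfl
  rw [e, Finset.card_image_of_injective, Finset.card_univ, ZMod.card]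
  intro u u' h
  exact congrFun h 1

theorem Count_F (s : Fin 2 → ZMod p) :
    F A s = ∑ v ∈ A, if v 1 - s 1 * v 0 = s 0 then 1 else 0 := by
  unfold F
  rw [Finset.card_filter]

/-- for fixed slope `s 1 = u` every point is on exactly one line -/
theorem sum_F : ∑ s : Fin 2 → ZMod p, F A s = p * A.card := by
  simp only [Count_F]
  rw [Finset.sum_comm]
  have h : ∀ v ∈ A, (∑ s : Fin 2 → ZMod p, if v 1 - s 1 * v 0 = s 0 then 1 else 0) = p := by
    intro v _
    rw [← Finset.card_filter, Count_lines]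
  rw [Finset.sum_congr rfl h, Finset.sum_const, smul_eq_mul, mul_comm]

/-- number of lines through two points -/
theorem Count_pair (v v' : Fin 2 → ZMod p) :
    (if v' = v then p else 0) + (if v' 0 ≠ v 0 then 1 else 0) ≤
      (Finset.univ.filter fun s : Fin 2 → ZMod p =>
        v 1 - s 1 * v 0 = s 0 ∧ v' 1 - s 1 * v' 0 = s 0).card := by
  by_cases h : v' = v
  · rw [if_pos h, h, if_neg (by simp), add_zero]
    simp only [and_self]
    rw [Count_lines]
  · rw [if_neg h, zero_add]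
    by_cases h0 : v' 0 ≠ v 0
    · rw [if_pos h0, Nat.succ_le_iff, Finset.card_pos]
      have h1 : v' 0 - v 0 ≠ 0 := sub_ne_zero.2 h0
      refine ⟨![v 1 - (v' 1 - v 1) / (v' 0 - v 0) * v 0, (v' 1 - v 1) / (v' 0 - v 0)], ?_⟩
      rw [Finset.mem_filter]
      refine ⟨Finset.mem_univ _, rfl, ?_⟩
      show v' 1 - (v' 1 - v 1) / (v' 0 - v 0) * v' 0 = v 1 - (v' 1 - v 1) / (v' 0 - v 0) * v 0
      have h2 : (v' 1 - v 1) / (v' 0 - v 0) * (v' 0 - v 0) = v' 1 - v 1 := div_mul_cancel₀ _ h1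
      linear_combination -h2
    · rw [if_neg h0]
      exact Nat.zero_le _

theorem Count_F_sq : ∑ s : Fin 2 → ZMod p, (F A s) ^ 2 = ∑ v ∈ A, ∑ v' ∈ A,
      (Finset.univ.filter fun s : Fin 2 → ZMod p =>
        v 1 - s 1 * v 0 = s 0 ∧ v' 1 - s 1 * v' 0 = s 0).card := by
  have h : ∀ s : Fin 2 → ZMod p, (F A s) ^ 2 = ∑ v ∈ A, ∑ v' ∈ A,
      if v 1 - s 1 * v 0 = s 0 ∧ v' 1 - s 1 * v' 0 = s 0 then 1 else 0 := by
    intro s
    rw [sq, Count_F, Finset.sum_mul_sum]
    refine Finset.sum_congr rfl fun v _ => Finset.sum_congr rfl fun v' _ => ?_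
    by_cases h1 : v 1 - s 1 * v 0 = s 0 <;> by_cases h2 : v' 1 - s 1 * v' 0 = s 0 <;>
      simp [h1, h2]
  simp only [h]
  rw [Finset.sum_comm]
  refine Finset.sum_congr rfl fun v _ => ?_
  rw [Finset.sum_comm]
  refine Finset.sum_congr rfl fun v' _ => ?_
  rw [Finset.card_filter]

theorem Count_row (hA : Bdd p k A) {v : Fin 2 → ZMod p} (hv : v ∈ A) :
    (p : ℤ) + A.card - k ≤ ((∑ v' ∈ A,
      (Finset.univ.filter fun s : Fin 2 → ZMod p =>
        v 1 - s 1 * v 0 = s 0 ∧ v' 1 - s 1 * v' 0 = s 0).card : ℕ) : ℤ) := by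
  have h1 : ∑ v' ∈ A, ((if v' = v then p else 0) + (if v' 0 ≠ v 0 then 1 else 0)) ≤ ∑ v' ∈ A,
      (Finset.univ.filter fun s : Fin 2 → ZMod p =>
        v 1 - s 1 * v 0 = s 0 ∧ v' 1 - s 1 * v' 0 = s 0).card :=
    Finset.sum_le_sum fun v' _ => Count_pair v v'
  rw [Finset.sum_add_distrib, Finset.sum_ite_eq' A v, if_pos hv, ← Finset.card_filter] at h1
  have h2 : (A.filter fun v' => v' 0 = v 0).card ≤ k := by
    have h := hA 1 0 (v 0) (Or.inl one_ne_zero)
    have e : (A.filter fun v' => 1 * v' 0 + 0 * v' 1 = v 0) = A.filter fun v' => v' 0 = v 0 := by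
      refine Finset.filter_congr fun v' _ => ?_
      rw [one_mul, zero_mul, add_zero]
    rw [e] at h
    exact h
  have h3 : (A.filter fun v' => v' 0 = v 0).card + (A.filter fun v' => ¬ v' 0 = v 0).card =
      A.card := Finset.card_filter_add_card_filter_not _
  have h4 : (A.filter fun v' => v' 0 ≠ v 0).card = (A.filter fun v' => ¬ v' 0 = v 0).card := rfl
  rw [h4] at h1
  zify at h1 h2 h3
  push_cast
  linarith

/-- PROOF: `∑_s F(s)^2` counts triples `(s, v, v')` with `v, v'` on the line `s`: for `v = v'` there are `p` lines, for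
`v ≠ v'` there is one if `v 0 ≠ v' 0` and none if `v 0 = v' 0`. For fixed `v` there are at most `k` points `v'` of `A` (with
`v`) with `v' 0 = v 0` (a vertical line), so at least `A.card - k` others. Hence `∑ F^2 ≥ A.card * (p + A.card - k)`. -/
theorem sum_F_sq (hA : Bdd p k A) :
    (A.card : ℤ) * (p + A.card - k) ≤ ∑ s : Fin 2 → ZMod p, (F A s : ℤ) ^ 2 := by
  have e : ∑ s : Fin 2 → ZMod p, (F A s : ℤ) ^ 2 =
      ((∑ s : Fin 2 → ZMod p, (F A s) ^ 2 : ℕ) : ℤ) := by
    push_cast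
    rfl
  rw [e, Count_F_sq, Nat.cast_sum]
  calc (A.card : ℤ) * (p + A.card - k) = ∑ _v ∈ A, ((p : ℤ) + A.card - k) := by
        rw [Finset.sum_const, nsmul_eq_mul]
    _ ≤ _ := Finset.sum_le_sum fun v hv => Count_row hA hv

theorem Count_N0 : (N0 A : ℤ) = ∑ s : Fin 2 → ZMod p, if F A s = 0 then 1 else 0 := by
  unfold N0
  rw [Finset.card_filter]
  push_cast
  rfl

theorem Count_N1 : (N1 k A : ℤ) =
    ∑ s : Fin 2 → ZMod p, if 0 < F A s ∧ F A s < k then 1 else 0 := by
  unfold N1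
  rw [Finset.card_filter]
  push_cast
  rfl

theorem Count_sum_F : ∑ s : Fin 2 → ZMod p, (F A s : ℤ) = p * A.card := by
  have h := congrArg (fun n : ℕ => (n : ℤ)) (sum_F (A := A))
  push_cast at h
  exact h

theorem Count_sum_k : ∑ s : Fin 2 → ZMod p, ((k : ℤ) - F A s) = k * p ^ 2 - p * A.card := by
  rw [Finset.sum_sub_distrib, Count_sum_F, Finset.sum_const, Finset.card_univ, Fintype.card_fun,
    ZMod.card, Fintype.card_fin, nsmul_eq_mul]
  push_cast
  ring

/-- PROOF: `(k - 1) * [0 < F < k] ≤ F (k - F)` for `0 ≤ F ≤ k`; sum, `sum_F`, `sum_F_sq`. -/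
theorem count_N1 (hk : 2 ≤ k) (hA : Bdd p k A) :
    ((k : ℤ) - 1) * N1 k A ≤ A.card * (((k : ℤ) - 1) * p - A.card + k) := by
  have h1 : ((k : ℤ) - 1) * N1 k A ≤
      ∑ s : Fin 2 → ZMod p, ((k : ℤ) * F A s - (F A s : ℤ) ^ 2) := by
    rw [Count_N1, Finset.mul_sum]
    refine Finset.sum_le_sum fun s _ => ?_
    have hle : (F A s : ℤ) ≤ k := by exact_mod_cast F_le hA s
    have h0 : (0 : ℤ) ≤ F A s := Int.natCast_nonneg _
    by_cases h : 0 < F A s ∧ F A s < k
    · rw [if_pos h]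
      have h2 : (0 : ℤ) < F A s := by exact_mod_cast h.1
      have h3 : (F A s : ℤ) < k := by exact_mod_cast h.2
      nlinarith [mul_nonneg (show (0 : ℤ) ≤ (F A s : ℤ) - 1 by linarith)
        (show (0 : ℤ) ≤ (k : ℤ) - F A s - 1 by linarith)]
    · rw [if_neg h, mul_zero]
      nlinarith [mul_nonneg h0 (sub_nonneg.2 hle)]
  rw [Finset.sum_sub_distrib, ← Finset.mul_sum, Count_sum_F] at h1
  have h2 := sum_F_sq hA
  linarith

/-- PROOF: `k - F ≤ k [F = 0] + (k - 1) [0 < F < k]`; sum over the `p ^ 2` lines. -/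
theorem count_N0 (hk : 2 ≤ k) (hA : Bdd p k A) :
    (k : ℤ) * p ^ 2 - p * A.card ≤ k * N0 A + ((k : ℤ) - 1) * N1 k A := by
  rw [← Count_sum_k (A := A), Count_N0, Count_N1, Finset.mul_sum, Finset.mul_sum,
    ← Finset.sum_add_distrib]
  refine Finset.sum_le_sum fun s _ => ?_
  have hle : F A s ≤ k := F_le hA s
  by_cases h : F A s = 0
  · rw [if_pos h, if_neg (by omega), h]
    simp
  · rw [if_neg h]
    by_cases h1 : F A s < k
    · rw [if_pos ⟨by omega, h1⟩]
      have h2 : (1 : ℤ) ≤ F A s := by exact_mod_cast (by omega : 1 ≤ F A s)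
      linarith
    · rw [if_neg (by omega)]
      have h2 : (F A s : ℤ) = k := by exact_mod_cast (by omega : F A s = k)
      linarith

/-- PROOF: `k [F = 0] + [0 < F < k] ≤ k - F`. -/
theorem count_S (hk : 2 ≤ k) (hA : Bdd p k A) :
    (k : ℤ) * N0 A + N1 k A ≤ (k : ℤ) * p ^ 2 - p * A.card := by
  rw [← Count_sum_k (A := A), Count_N0, Count_N1, Finset.mul_sum, ← Finset.sum_add_distrib]
  refine Finset.sum_le_sum fun s _ => ?_
  have hle : F A s ≤ k := F_le hA s
  by_cases h : F A s = 0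
  · rw [if_pos h, if_neg (by omega), h]
    simp
  · rw [if_neg h]
    by_cases h1 : F A s < k
    · rw [if_pos ⟨by omega, h1⟩]
      have h2 : (F A s : ℤ) + 1 ≤ k := by exact_mod_cast h1
      linarith
    · rw [if_neg (by omega)]
      have h2 : (F A s : ℤ) = k := by exact_mod_cast (by omega : F A s = k)
      linarith

end KB30
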