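import Pool.Agent.W_3ac1bb_h30.Smooth

set_option autoImplicit false

namespace KB30

open MvPolynomial

variable {K : Type} [Field K] [Infinite K]

/-- A plane curve of degree `d`, `2 ≤ d < p`, irreducible, has at most `d (d + p - 1) / 2` points over `F_p`.
PROOF. If `q` does not divide `frob p q`, then it does not divide `f = frob p q + q`, `f ≠ 0`; at every point of `Z` choose a nonzero
tangent direction `v z` (`(q_1, - q_0)` if the gradient is not zero, else `(1, 0)`): `bez2` with `eval_frob`, `dirD_frob`,
`totalDegree_frob`. If `q` divides `frob p q`: all points are singular (`sing_of_dvd`); `pderiv i q ≠ 0` for some `i`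
(`pderiv_ne_zero`), of total degree `≤ d - 1` (`totalDegree_pderiv`), so not divisible by `q`; `bez1`: `|Z| ≤ d (d - 1)`, and
`2 (d - 1) ≤ d + p - 1`. -/
theorem curve_bound {p : ℕ} (hp : p.Prime) [CharP K p] {q : MP K} (hq : Irreducible q)
    (h1 : 2 ≤ q.totalDegree) (h2 : q.totalDegree < p) (Z : Finset (Pt K))
    (hZ : ∀ z ∈ Z, ∀ i, z i ^ p = z i) (h0 : ∀ z ∈ Z, eval z q = 0) :
    2 * Z.card ≤ q.totalDegree * (q.totalDegree + p - 1) := by
  classical
  by_cases hd : q ∣ frob p q
  · have hsing : ∀ z ∈ Z, ∀ i, eval z (pderiv i q) = 0 := by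
      intro z hz i
      have h3 := sing_of_dvd hp hq h1 h2 hd z (hZ z hz) (h0 z hz)
      fin_cases i
      · exact h3.1
      · exact h3.2
    obtain ⟨i, hi⟩ : ∃ i, pderiv i q ≠ 0 := by
      rcases pderiv_ne_zero hp q (by omega) h2 with h3 | h3
      · exact ⟨0, h3⟩
      · exact ⟨1, h3⟩
    have hdeg := totalDegree_pderiv q i
    have hnd : ¬ q ∣ pderiv i q := by
      rintro ⟨r, hr⟩
      have hr0 : r ≠ 0 := by
        rintro rfl
        rw [mul_zero] at hr
        exact hi hr
      have h3 := totalDegree_mul_of_isDomain hq.ne_zero hr0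
      rw [← hr] at h3
      omega
    have h3 := bez1 hq hi hnd Z h0 fun z hz => hsing z hz i
    have h4 : q.totalDegree * (pderiv i q).totalDegree ≤ q.totalDegree * (q.totalDegree - 1) :=
      Nat.mul_le_mul_left _ hdeg
    calc 2 * Z.card ≤ 2 * (q.totalDegree * (q.totalDegree - 1)) := by omega
      _ = q.totalDegree * (2 * (q.totalDegree - 1)) := by ring
      _ ≤ q.totalDegree * (q.totalDegree + p - 1) := Nat.mul_le_mul_left _ (by omega)
  · have hf : frob p q + q ≠ 0 := by
      intro h3
      apply hd
      rw [eq_neg_of_add_eq_zero_left h3]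
      exact (dvd_neg).2 dvd_rfl
    have hnd : ¬ q ∣ frob p q + q := fun h3 => hd ((dvd_add_left dvd_rfl).1 h3)
    obtain ⟨v, hv⟩ : ∃ v : Pt K → Pt K, ∀ z, v z ≠ 0 ∧ dirD (v z) z q = 0 := by
      have h3 : ∀ z : Pt K, ∃ v : Pt K, v ≠ 0 ∧ dirD v z q = 0 := by
        intro z
        by_cases hg : eval z (pderiv 0 q) = 0
        · refine ⟨![1, 0], ?_, ?_⟩
          · intro h4
            have := congrFun h4 0
            simp at this
          · simp [dirD, hg]
        · refine ⟨![eval z (pderiv 1 q), - eval z (pderiv 0 q)], ?_, ?_⟩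
          · intro h4
            have := congrFun h4 1
            simp only [Matrix.cons_val_one, Matrix.cons_val_fin_one, Pi.zero_apply, neg_eq_zero] at this
            exact hg this
          · simp only [dirD, Matrix.cons_val_zero, Matrix.cons_val_one, Matrix.cons_val_fin_one]
            ring
      choose v hv using h3
      exact ⟨v, hv⟩
    have h3 := bez2 hq hf hnd Z v (fun z _ => (hv z).1) (fun z hz => ⟨h0 z hz, (hv z).2⟩)
      (fun z hz => ⟨by rw [map_add, eval_frob q z (hZ z hz), h0 z hz, add_zero],
        dirD_frob q (v z) z (hZ z hz)⟩)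
    exact h3.trans (Nat.mul_le_mul_left _ (totalDegree_frob hp.two_le q (by omega)))

end KB30
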