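import Mathlib

/-!
# MP_3ac1bb_co : k-bounded sets in the plane over `F_p`, definitions (helper30)

Theorem: for `k ≥ 5`, `p ≥ 1000 k ^ 2` prime, every `k`-bounded set in `F_p ^ 2` has at most
`(k - 1 - 1 / (30 k)) p` points. Paper proof: table `proofs`, row 232.

`K` is an infinite field (later of characteristic `p`); all polynomials are in two variables over `K`.
-/

set_option autoImplicit false

namespace KB30

open MvPolynomial

/-- polynomials in two variables -/
abbrev MP (K : Type) [Field K] : Type := MvPolynomial (Fin 2) K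

/-- points of the plane -/
abbrev Pt (K : Type) : Type := Fin 2 → K

/-- polynomials of total degree at most `e` -/
noncomputable abbrev Q (K : Type) [Field K] (e : ℕ) : Submodule K (MP K) :=
  restrictTotalDegree (Fin 2) K e

/-- `f` and `g` are coprime: `f ∣ g b → f ∣ b` -/
def Cop {K : Type} [Field K] (f g : MP K) : Prop := ∀ b : MP K, f ∣ g * b → f ∣ b

/-- derivative at `z` in direction `v` -/
noncomputable def dirD {K : Type} [Field K] (v z : Pt K) (P : MP K) : K :=
  v 0 * eval z (pderiv 0 P) + v 1 * eval z (pderiv 1 P)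

/-- restriction to the line `X 1 = μ X 0 + c`, parametrized by `X 0` -/
noncomputable def lineHom {K : Type} [Field K] (μ c : K) : MP K →ₐ[K] Polynomial K :=
  aeval ![Polynomial.X, Polynomial.C μ * Polynomial.X + Polynomial.C c]

/-- a polynomial in `X 0` -/
noncomputable def lift0 {K : Type} [Field K] : Polynomial K →ₐ[K] MP K := Polynomial.aeval (X 0)

/-- the linear form `X 1 - μ X 0` -/
noncomputable def lin {K : Type} [Field K] (μ : K) : MP K := X 1 - C μ * X 0

/-- evaluation at the points of a finite set -/
noncomputable def evZ {K : Type} [Field K] (Z : Finset (Pt K)) : MP K →ₗ[K] (Z → K) :=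
  LinearMap.pi fun z => (aeval z.1 : MP K →ₐ[K] K).toLinearMap

@[simp] theorem evZ_apply {K : Type} [Field K] (Z : Finset (Pt K)) (P : MP K) (z : Z) :
    evZ Z P z = eval z.1 P := rfl

/-- the polynomials of total degree at most `e` which vanish on `Z` -/
noncomputable def van {K : Type} [Field K] (Z : Finset (Pt K)) (e : ℕ) : Submodule K (MP K) :=
  Q K e ⊓ LinearMap.ker (evZ Z)

/-- restriction to the line `z + s v`, parametrized by `s` -/
noncomputable def lineAt {K : Type} [Field K] (z v : Pt K) : MP K →ₐ[K] Polynomial K :=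
  aeval fun i => Polynomial.C (z i) + Polynomial.C (v i) * Polynomial.X

/-- the polynomial `(X ^ p - X) q_X + (Y ^ p - Y) q_Y` -/
noncomputable def frob {K : Type} [Field K] (p : ℕ) (q : MP K) : MP K :=
  (X 0 ^ p - X 0) * pderiv 0 q + (X 1 ^ p - X 1) * pderiv 1 q

/-- `A` has at most `k` points on every line -/
def Bdd (p k : ℕ) (A : Finset (Fin 2 → ZMod p)) : Prop :=
  ∀ a b c : ZMod p, (a ≠ 0 ∨ b ≠ 0) → (A.filter fun v => a * v 0 + b * v 1 = c).card ≤ k

/-- number of points of `A` on the line `y = u x + t`, for `s = (t, u)` -/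
def F {p : ℕ} (A : Finset (Fin 2 → ZMod p)) (s : Fin 2 → ZMod p) : ℕ :=
  (A.filter fun v => v 1 - s 1 * v 0 = s 0).card

/-- a point of `F_p ^ 2` as a point of `K ^ 2` -/
def emb {p : ℕ} (K : Type) [Field K] [Algebra (ZMod p) K] (s : Fin 2 → ZMod p) : Pt K :=
  fun i => algebraMap (ZMod p) K (s i)

end KB30
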