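import Pool.Agent.W_3ac1bb_h30.Defs

set_option autoImplicit false

namespace KB30

open MvPolynomial

variable {K : Type} [Field K]

/-- the pairs of sum at most `e` -/
def DimQ_T (e : ℕ) : Finset (ℕ × ℕ) :=
  (Finset.range (e + 1)).biUnion fun d => Finset.HasAntidiagonal.antidiagonal d

theorem DimQ_mem_T {e : ℕ} {p : ℕ × ℕ} : p ∈ DimQ_T e ↔ p.1 + p.2 ≤ e := by
  unfold DimQ_T
  rw [Finset.mem_biUnion]
  constructor
  · rintro ⟨d, hd, hp⟩
    rw [Finset.mem_range] at hd
    rw [Finset.HasAntidiagonal.mem_antidiagonal] at hp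
    omega
  · intro h
    exact ⟨p.1 + p.2, Finset.mem_range.mpr (by omega), Finset.HasAntidiagonal.mem_antidiagonal.mpr rfl⟩

theorem DimQ_card_T (e : ℕ) : 2 * (DimQ_T e).card = (e + 1) * (e + 2) := by
  unfold DimQ_T
  rw [Finset.card_biUnion]
  · have h1 : ∀ d ∈ Finset.range (e + 1), (Finset.HasAntidiagonal.antidiagonal d).card = d + 1 := fun d _ =>
      Finset.Nat.card_antidiagonal d
    rw [Finset.sum_congr rfl h1]
    induction e with
    | zero => simp
    | succ e ih =>
      rw [Finset.sum_range_succ, Nat.mul_add, ih (fun d _ => Finset.Nat.card_antidiagonal d)]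
      ring
  · intro d _ d' _ hne
    show Disjoint (Finset.HasAntidiagonal.antidiagonal d) (Finset.HasAntidiagonal.antidiagonal d')
    rw [Finset.disjoint_left]
    intro p hp hp'
    rw [Finset.HasAntidiagonal.mem_antidiagonal] at hp hp'
    exact hne (hp.symm.trans hp')

theorem DimQ_sum (x : Fin 2 →₀ ℕ) : (x.sum fun _ d => d) = x 0 + x 1 := by
  rw [Finsupp.sum_fintype _ _ (fun _ => rfl), Fin.sum_univ_two]

/-- exponents and pairs -/
noncomputable def DimQ_equiv (e : ℕ) :
    {x : Fin 2 →₀ ℕ | (x.sum fun _ d => d) ≤ e} ≃ {p : ℕ × ℕ // p ∈ DimQ_T e} where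
  toFun x := ⟨(x.1 0, x.1 1), DimQ_mem_T.mpr (by
    have h := x.2
    rw [Set.mem_ofPred_eq, DimQ_sum] at h
    exact h)⟩
  invFun p := ⟨Finsupp.equivFunOnFinite.symm ![p.1.1, p.1.2], by
    have h := DimQ_mem_T.mp p.2
    rw [Set.mem_ofPred_eq, DimQ_sum]
    simpa using h⟩
  left_inv x := by
    apply Subtype.ext
    ext i
    fin_cases i <;> simp
  right_inv p := by
    apply Subtype.ext
    simp

/-- The dimension of `Q e` is `(e+1)(e+2)/2`. PROOF: the monomials `X ^ i Y ^ j`, `i + j ≤ e`, are a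
basis (`MvPolynomial.basisRestrictSupport` or similar; `restrictTotalDegree` is `restrictSupport` of
the set of exponents of sum `≤ e`); the exponents `Fin 2 →₀ ℕ` of sum `≤ e` are counted by
`∑ i ≤ e, (e - i + 1)` (bijection with `Finset.range (e+1)` sigma `range (e+1-i)`, or
`Finset.Nat.antidiagonal`, induction on `e`). -/
theorem finrank_Q (e : ℕ) : 2 * Module.finrank K (Q K e) = (e + 1) * (e + 2) := by
  have h1 : Module.finrank K (Q K e) =
      Nat.card {x : Fin 2 →₀ ℕ | (x.sum fun _ d => d) ≤ e} :=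
    Module.finrank_eq_nat_card_basis
      (basisRestrictSupport K {x : Fin 2 →₀ ℕ | (x.sum fun _ d => d) ≤ e})
  rw [h1, Nat.card_congr (DimQ_equiv e), Nat.card_eq_fintype_card, Fintype.card_coe]
  exact DimQ_card_T e

theorem mem_Q {e : ℕ} {P : MP K} : P ∈ Q K e ↔ P.totalDegree ≤ e :=
  mem_restrictTotalDegree _ _ _

theorem Q_mono {e e' : ℕ} (h : e ≤ e') : Q K e ≤ Q K e' := fun P hP =>
  mem_Q.2 ((mem_Q.1 hP).trans h)

theorem mul_mem_Q {a b : ℕ} {P R : MP K} (hP : P ∈ Q K a) (hR : R ∈ Q K b) : P * R ∈ Q K (a + b) :=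
  mem_Q.2 ((totalDegree_mul P R).trans (Nat.add_le_add (mem_Q.1 hP) (mem_Q.1 hR)))

/-- PROOF: `totalDegree_mul_of_isDomain` (the case `P = 0` is trivial). -/
theorem mul_mem_Q_iff {f P : MP K} (hf : f ≠ 0) (e : ℕ) :
    f * P ∈ Q K (f.totalDegree + e) ↔ P ∈ Q K e := by
  by_cases hP : P = 0
  · rw [hP, mul_zero]
    exact ⟨fun _ => Submodule.zero_mem _, fun _ => Submodule.zero_mem _⟩
  · rw [mem_Q, mem_Q, totalDegree_mul_of_isDomain hf hP]
    omega

/-- PROOF: multiplication by `f ≠ 0` is injective (`LinearMap.finrank_map_eq'`-like,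
`Submodule.equivMapOfInjective`). -/
theorem finrank_map_mul {f : MP K} (hf : f ≠ 0) (V : Submodule K (MP K)) :
    Module.finrank K (V.map (LinearMap.mulLeft K f)) = Module.finrank K V := by
  have hinj : Function.Injective (LinearMap.mulLeft K f) := by
    intro a b hab
    exact mul_left_cancel₀ hf hab
  exact (LinearEquiv.finrank_eq (Submodule.equivMapOfInjective _ hinj V)).symm

end KB30
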