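import Pool.Agent.W_3ac1bb_h30.Defs

set_option autoImplicit false

/-! The weights `k - F` are orthogonal to the polynomials of degree at most `p - 2`. -/

namespace KB30

open MvPolynomial

variable {p : ℕ} [Fact p.Prime] {K : Type} [Field K] [Algebra (ZMod p) K]

omit [Fact p.Prime] in
theorem Dual_pair (f : (Fin 2 → ZMod p) → K) [Fintype (ZMod p)] :
    ∑ s : Fin 2 → ZMod p, f s = ∑ y : ZMod p, ∑ u : ZMod p, f ![y, u] := by
  rw [← Fintype.sum_prod_type']
  refine Fintype.sum_equiv (finTwoArrowEquiv (ZMod p)) _ _ (fun s => ?_)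
  congr 1
  funext i
  fin_cases i <;> rfl

/-- PROOF: for a monomial: `∑ u, (y - u x) ^ i u ^ j`, a polynomial in `u` of degree `≤ i + j ≤ p - 2`
(expand with the binomial theorem and `FiniteField.sum_pow_lt_card_sub_one`). -/
theorem sum_line (P : MP K) (hP : P.totalDegree ≤ p - 2) (x y : ZMod p) :
    ∑ u : ZMod p, eval (emb K ![y - u * x, u]) P = 0 := by
  have hp2 : 2 ≤ p := (Fact.out : p.Prime).two_le
  set g : Fin 2 → Polynomial K := ![Polynomial.C (algebraMap (ZMod p) K y) -
    Polynomial.C (algebraMap (ZMod p) K x) * Polynomial.X, Polynomial.X] with hg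
  set q : Polynomial K := aeval g P with hq
  have hdeg : q.natDegree ≤ (p - 2) * 1 := by
    apply MvPolynomial.aeval_natDegree_le P hP g
    intro i
    fin_cases i
    · show (Polynomial.C (algebraMap (ZMod p) K y) -
        Polynomial.C (algebraMap (ZMod p) K x) * Polynomial.X).natDegree ≤ 1
      refine le_trans (Polynomial.natDegree_sub_le _ _) (max_le ?_ ?_)
      · rw [Polynomial.natDegree_C]; omega
      · exact (Polynomial.natDegree_C_mul_le _ _).trans Polynomial.natDegree_X_le
    · show (Polynomial.X : Polynomial K).natDegree ≤ 1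
      exact Polynomial.natDegree_X_le
  have hev : ∀ u : ZMod p, eval (emb K ![y - u * x, u]) P = q.eval (algebraMap (ZMod p) K u) := by
    intro u
    rw [hq]
    have h1 : (Polynomial.evalRingHom (algebraMap (ZMod p) K u)) (aeval g P) =
        eval (fun i => (g i).eval (algebraMap (ZMod p) K u)) P := by
      rw [aeval_def, hom_eval₂]
      rw [← eval₂_id]
      congr 1
      ext a
      simp
    rw [Polynomial.coe_evalRingHom] at h1
    rw [h1]
    congr 2
    funext i
    fin_cases i
    · show algebraMap (ZMod p) K (y - u * x) = (Polynomial.C (algebraMap (ZMod p) K y) -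
        Polynomial.C (algebraMap (ZMod p) K x) * Polynomial.X).eval (algebraMap (ZMod p) K u)
      rw [Polynomial.eval_sub, Polynomial.eval_mul, Polynomial.eval_C, Polynomial.eval_C,
        Polynomial.eval_X, map_sub, map_mul, mul_comm (algebraMap (ZMod p) K u)]
    · show algebraMap (ZMod p) K u = (Polynomial.X : Polynomial K).eval (algebraMap (ZMod p) K u)
      rw [Polynomial.eval_X]
  simp_rw [hev, Polynomial.eval_eq_sum_range]
  rw [Finset.sum_comm]
  apply Finset.sum_eq_zero
  intro i hi
  rw [Finset.mem_range] at hi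
  rw [← Finset.mul_sum]
  have h3 : ∑ u : ZMod p, (algebraMap (ZMod p) K u) ^ i = 0 := by
    simp_rw [← map_pow]
    rw [← map_sum]
    rw [FiniteField.sum_pow_lt_card_sub_one, map_zero]
    rw [ZMod.card]
    omega
  rw [h3, mul_zero]

/-- PROOF: by linearity for monomials `X ^ i Y ^ j`, `i + j ≤ p - 2`; the sum is a product of power sums
(`FiniteField.sum_pow_lt_card_sub_one`). -/
theorem sum_all (hp : 3 ≤ p) (P : MP K) (hP : P.totalDegree ≤ p - 2) :
    ∑ s : Fin 2 → ZMod p, eval (emb K s) P = 0 := by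
  rw [Dual_pair]
  apply Finset.sum_eq_zero
  intro y _
  have h := sum_line P hP 0 y
  simpa using h

/-- PROOF: `F A s = ∑ v ∈ A, [v 1 - s 1 * v 0 = s 0]`; exchange the sums: for every `v ∈ A` the sum over the `s` with
`s 0 = v 1 - s 1 * v 0` is a sum over `u = s 1`: `sum_line`; and `sum_all` for the constant `k`. -/
theorem sum_weights (hp : 3 ≤ p) (k : ℕ) (A : Finset (Fin 2 → ZMod p)) (P : MP K)
    (hP : P.totalDegree ≤ p - 2) :
    ∑ s : Fin 2 → ZMod p, ((k : K) - (F A s : K)) * eval (emb K s) P = 0 := by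
  simp_rw [sub_mul]
  rw [Finset.sum_sub_distrib, ← Finset.mul_sum, sum_all hp P hP, mul_zero, zero_sub, neg_eq_zero]
  have h1 : ∀ s : Fin 2 → ZMod p, (F A s : K) * eval (emb K s) P =
      ∑ v ∈ A, if v 1 - s 1 * v 0 = s 0 then eval (emb K s) P else 0 := by
    intro s
    rw [← Finset.sum_filter, Finset.sum_const, nsmul_eq_mul]
    rfl
  simp_rw [h1]
  rw [Finset.sum_comm]
  apply Finset.sum_eq_zero
  intro v _
  rw [Dual_pair, Finset.sum_comm]
  refine Eq.trans ?_ (sum_line P hP (v 0) (v 1))
  apply Finset.sum_congr rfl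
  intro u _
  refine (Finset.sum_eq_single (v 1 - u * v 0) ?_ ?_).trans ?_
  · intro y _ hy
    show (if v 1 - u * v 0 = y then eval (emb K ![y, u]) P else 0) = 0
    rw [if_neg (fun h => hy h.symm)]
  · intro h
    exact absurd (Finset.mem_univ _) h
  · show (if v 1 - u * v 0 = v 1 - u * v 0 then eval (emb K ![v 1 - u * v 0, u]) P else 0) = _
    rw [if_pos rfl]

end KB30
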