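import Pool.Agent.W_3ac1bb_h30.Defs

set_option autoImplicit false

namespace KB30

open MvPolynomial

variable {p k : ℕ} [Fact p.Prime]

theorem LinCase_fib {α : Type} (A : Finset α) (f : α → ZMod p) (U : Finset (ZMod p))
    (h1 : ∀ u, (A.filter fun v => f v = u).card ≤ k) (h2 : ∀ u ∈ U, ∀ v ∈ A, f v ≠ u) :
    A.card + k * U.card ≤ k * p := by
  classical
  have h3 : A.card = ∑ u : ZMod p, (A.filter fun v => f v = u).card :=
    Finset.card_eq_sum_card_fiberwise fun v _ => Finset.mem_coe.2 (Finset.mem_univ _)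
  have h4 : k * U.card = ∑ u : ZMod p, if u ∈ U then k else 0 := by
    rw [← Finset.sum_filter, Finset.sum_const, smul_eq_mul, mul_comm]
    congr 2
    ext u
    simp
  have h5 : k * p = ∑ _u : ZMod p, k := by
    rw [Finset.sum_const, Finset.card_univ, ZMod.card, smul_eq_mul, mul_comm]
  rw [h3, h4, h5, ← Finset.sum_add_distrib]
  refine Finset.sum_le_sum fun u _ => ?_
  by_cases hu : u ∈ U
  · rw [if_pos hu, Finset.filter_false_of_mem (h2 u hu), Finset.card_empty, zero_add]
  · rw [if_neg hu, add_zero]
    exact h1 u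

theorem LinCase_F {A : Finset (Fin 2 → ZMod p)} {s : Fin 2 → ZMod p} (h : F A s = 0)
    {v : Fin 2 → ZMod p} (hv : v ∈ A) : v 1 - s 1 * v 0 ≠ s 0 := by
  intro h1
  have h2 : v ∈ A.filter fun v => v 1 - s 1 * v 0 = s 0 := Finset.mem_filter.2 ⟨hv, h1⟩
  rw [Finset.card_eq_zero.1 h] at h2
  exact absurd h2 (Finset.notMem_empty v)

theorem LinCase_line {A : Finset (Fin 2 → ZMod p)} (hA : Bdd p k A) (u t : ZMod p) :
    (A.filter fun v => v 1 - u * v 0 = t).card ≤ k := by
  have h := hA (-u) 1 t (Or.inr one_ne_zero)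
  refine le_trans (Finset.card_le_card fun v hv => ?_) h
  rw [Finset.mem_filter] at hv ⊢
  refine ⟨hv.1, ?_⟩
  rw [← hv.2]
  ring

/-- Empty lines in a pencil or a parallel class. PROOF: `E` = the set of the empty lines `s` with `a s 0 + b s 1 = c`.
If `a = 0`: `s 1 = c / b` is fixed: `A.card = ∑_(s 1 = c/b) F A s ≤ k (p - |E|)`. If `a ≠ 0`: `s 0 = c / a - (b / a) s 1`, all these
lines pass through the point `(x, y) = (b / a, c / a)` (`y - s 1 * x = s 0`), every point `v` of `A` with `v 0 ≠ x` is on exactly one of them, and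
the points of `A` with `v 0 = x` are on a vertical line, so there are at most `k` of them: `A.card ≤ k (p - |E|) + k`. -/
theorem empty_on_line {A : Finset (Fin 2 → ZMod p)} (hA : Bdd p k A) (a b c : ZMod p)
    (hab : a ≠ 0 ∨ b ≠ 0) :
    A.card + k * (Finset.univ.filter fun s : Fin 2 → ZMod p =>
      F A s = 0 ∧ a * s 0 + b * s 1 = c).card ≤ k * (p + 1) := by
  classical
  by_cases ha : a = 0
  · have hb : b ≠ 0 := by
      rcases hab with h | h
      · exact absurd ha h
      · exact h
    have hinj : Set.InjOn (fun s : Fin 2 → ZMod p => s 0) ((Finset.univ.filter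
        fun s : Fin 2 → ZMod p => F A s = 0 ∧ a * s 0 + b * s 1 = c) : Finset _) := by
      intro s hs s' hs' h
      have h1 := (Finset.mem_filter.1 (Finset.mem_coe.1 hs)).2.2
      have h2 := (Finset.mem_filter.1 (Finset.mem_coe.1 hs')).2.2
      rw [ha, zero_mul, zero_add] at h1 h2
      have h3 : s 1 = s' 1 := mul_left_cancel₀ hb (h1.trans h2.symm)
      funext i
      fin_cases i
      · exact h
      · exact h3
    have key := LinCase_fib (k := k) A (fun v => v 1 - (c / b) * v 0)
      ((Finset.univ.filter fun s : Fin 2 → ZMod p => F A s = 0 ∧ a * s 0 + b * s 1 = c).image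
        (fun s : Fin 2 → ZMod p => s 0)) (fun u => LinCase_line hA _ _) (by
        intro u hu v hv hvu
        obtain ⟨s, hs, rfl⟩ := Finset.mem_image.1 hu
        have h1 := (Finset.mem_filter.1 hs).2
        refine LinCase_F h1.1 hv ?_
        have h2 : s 1 = c / b := by
          rw [eq_div_iff hb, ← h1.2, ha]
          ring
        rw [h2]
        exact hvu)
    rw [Finset.card_image_of_injOn hinj] at key
    refine key.trans ?_
    exact Nat.mul_le_mul_left k (Nat.le_succ p)
  · have hinj : Set.InjOn (fun s : Fin 2 → ZMod p => s 1) ((Finset.univ.filter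
        fun s : Fin 2 → ZMod p => F A s = 0 ∧ a * s 0 + b * s 1 = c) : Finset _) := by
      intro s hs s' hs' h
      have h1 := (Finset.mem_filter.1 (Finset.mem_coe.1 hs)).2.2
      have h2 := (Finset.mem_filter.1 (Finset.mem_coe.1 hs')).2.2
      have h0 : s 1 = s' 1 := h
      rw [← h2, h0] at h1
      have h3 : s 0 = s' 0 := mul_left_cancel₀ ha (add_right_cancel h1)
      funext i
      fin_cases i
      · exact h3
      · exact h
    have key := LinCase_fib (k := k) (A.filter fun v => v 0 ≠ b / a)
      (fun v => (v 1 - c / a) / (v 0 - b / a))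
      ((Finset.univ.filter fun s : Fin 2 → ZMod p => F A s = 0 ∧ a * s 0 + b * s 1 = c).image
        (fun s : Fin 2 → ZMod p => s 1)) (by
        intro u
        refine le_trans (Finset.card_le_card fun v hv => ?_)
          (LinCase_line hA u (c / a - b / a * u))
        rw [Finset.mem_filter, Finset.mem_filter] at hv
        rw [Finset.mem_filter]
        refine ⟨hv.1.1, ?_⟩
        have h1 := hv.2
        rw [div_eq_iff (sub_ne_zero.2 hv.1.2)] at h1
        linear_combination h1) (by
        intro u hu v hv hvu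
        obtain ⟨s, hs, rfl⟩ := Finset.mem_image.1 hu
        have h1 := (Finset.mem_filter.1 hs).2
        have h2 := Finset.mem_filter.1 hv
        refine LinCase_F h1.1 h2.1 ?_
        rw [div_eq_iff (sub_ne_zero.2 h2.2)] at hvu
        have h3 : s 0 = c / a - b / a * s 1 := by
          rw [← h1.2]
          field_simp
          ring
        rw [h3]
        linear_combination hvu)
    rw [Finset.card_image_of_injOn hinj] at key
    have h1 : (A.filter fun v => v 0 = b / a).card ≤ k := by
      refine le_trans (Finset.card_le_card fun v hv => ?_) (hA 1 0 (b / a) (Or.inl one_ne_zero))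
      rw [Finset.mem_filter] at hv ⊢
      refine ⟨hv.1, ?_⟩
      rw [← hv.2]
      ring
    have h2 := Finset.card_filter_add_card_filter_not (s := A) (fun v => v 0 = b / a)
    have h3 : (A.filter fun v => ¬ v 0 = b / a) = A.filter fun v => v 0 ≠ b / a := rfl
    rw [h3] at h2
    rw [mul_add, mul_one]
    omega

theorem LinCase_deg {K : Type} [Field K] {q : MP K} (hq : q.totalDegree = 1) {m : Fin 2 →₀ ℕ}
    (hm : m ∈ q.support) : m = 0 ∨ m = Finsupp.single 0 1 ∨ m = Finsupp.single 1 1 := by
  have h1 := le_totalDegree hm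
  rw [hq, Finsupp.sum_fintype _ _ (fun _ => rfl), Fin.sum_univ_two] at h1
  have h2 : (m 0 = 0 ∧ m 1 = 0) ∨ (m 0 = 1 ∧ m 1 = 0) ∨ (m 0 = 0 ∧ m 1 = 1) := by omega
  rcases h2 with h | h | h
  · left
    ext i
    fin_cases i
    · exact h.1
    · exact h.2
  · right; left
    ext i
    fin_cases i
    · simpa using h.1
    · simpa using h.2
  · right; right
    ext i
    fin_cases i
    · simpa using h.1
    · simpa using h.2

theorem LinCase_eval {K : Type} [Field K] {q : MP K} (hq : q.totalDegree = 1) (s : Pt K) :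
    eval s q = coeff 0 q + coeff (Finsupp.single 0 1) q * s 0 +
      coeff (Finsupp.single 1 1) q * s 1 := by
  classical
  rw [MvPolynomial.eval_eq']
  have h1 : q.support ⊆ {0, Finsupp.single 0 1, Finsupp.single 1 1} := by
    intro m hm
    rw [Finset.mem_insert, Finset.mem_insert, Finset.mem_singleton]
    exact LinCase_deg hq hm
  rw [Finset.sum_subset h1 (fun m _ hm => by rw [notMem_support_iff.1 hm, zero_mul])]
  have h2 : (0 : Fin 2 →₀ ℕ) ≠ Finsupp.single 0 1 := by
    intro h
    have := DFunLike.congr_fun h 0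
    simp at this
  have h3 : (0 : Fin 2 →₀ ℕ) ≠ Finsupp.single 1 1 := by
    intro h
    have := DFunLike.congr_fun h 1
    simp at this
  have h4 : (Finsupp.single 0 1 : Fin 2 →₀ ℕ) ≠ Finsupp.single 1 1 := by
    intro h
    have := DFunLike.congr_fun h 1
    simp at this
  rw [Finset.sum_insert (by simp [h2, h3]), Finset.sum_insert (by simp [h4]),
    Finset.sum_singleton]
  simp [Fin.prod_univ_two]
  ring

theorem LinCase_ne {K : Type} [Field K] {q : MP K} (hq : q.totalDegree = 1) :
    coeff (Finsupp.single 0 1) q ≠ 0 ∨ coeff (Finsupp.single 1 1) q ≠ 0 := by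
  by_contra h
  push Not at h
  have h1 : q.totalDegree = 0 := by
    rw [MvPolynomial.totalDegree_eq_zero_iff]
    intro m hm i
    rcases LinCase_deg hq hm with h2 | h2 | h2
    · rw [h2]; rfl
    · rw [h2] at hm
      exact absurd h.1 (mem_support_iff.1 hm)
    · rw [h2] at hm
      exact absurd h.2 (mem_support_iff.1 hm)
  omega

/-- PROOF: `q = C γ + C α * X 0 + C β * X 1` with `(α, β) ≠ (0, 0)`. If two distinct points `s ≠ s'` of `F_p ^ 2` are on `q`, then all
points `r` of `F_p ^ 2` on `q` satisfy `(r 0 - s 0) (s' 1 - s 1) = (r 1 - s 1) (s' 0 - s 0)` (in `K`, so in `F_p`: `algebraMap` is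
injective), which is a line `a r 0 + b r 1 = c` over `F_p` with `(a, b) ≠ (0, 0)`: `empty_on_line`. If there is at most one point:
`A.card ≤ k p` (`A.card ≤ k p` by parallel lines, e.g. `empty_on_line` with `a = 0`). -/
theorem lin_case {K : Type} [Field K] [DecidableEq K] [Algebra (ZMod p) K] {A : Finset (Fin 2 → ZMod p)}
    (hA : Bdd p k A) {q : MP K} (hq : q.totalDegree = 1) :
    A.card + k * (Finset.univ.filter fun s : Fin 2 → ZMod p =>
      F A s = 0 ∧ eval (emb K s) q = 0).card ≤ k * (p + 1) := by
  classical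
  by_cases h1 : (Finset.univ.filter fun s : Fin 2 → ZMod p =>
      F A s = 0 ∧ eval (emb K s) q = 0).card ≤ 1
  · have h2 := LinCase_fib (k := k) A (fun v => v 1 - 0 * v 0) ∅ (fun u => LinCase_line hA _ _)
      (fun u hu => absurd hu (Finset.notMem_empty u))
    rw [Finset.card_empty, mul_zero, add_zero] at h2
    calc A.card + k * _ ≤ k * p + k * 1 := Nat.add_le_add h2 (Nat.mul_le_mul_left k h1)
      _ = k * (p + 1) := by ring
  · rw [not_le, Finset.one_lt_card] at h1
    obtain ⟨s, hs, s', hs', hne⟩ := h1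
    rw [Finset.mem_filter] at hs hs'
    have hs2 := hs.2.2
    have hs2' := hs'.2.2
    rw [LinCase_eval hq] at hs2 hs2'
    have hab : s' 1 - s 1 ≠ 0 ∨ s 0 - s' 0 ≠ 0 := by
      by_contra h
      push Not at h
      apply hne
      funext i
      fin_cases i
      · exact sub_eq_zero.1 h.2
      · exact (sub_eq_zero.1 h.1).symm
    refine le_trans ?_ (empty_on_line hA (s' 1 - s 1) (s 0 - s' 0)
      ((s' 1 - s 1) * s 0 + (s 0 - s' 0) * s 1) hab)
    refine Nat.add_le_add_left (Nat.mul_le_mul_left k (Finset.card_le_card fun r hr => ?_)) _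
    rw [Finset.mem_filter] at hr ⊢
    refine ⟨hr.1, hr.2.1, ?_⟩
    have hr2 := hr.2.2
    rw [LinCase_eval hq] at hr2
    have hinj : Function.Injective (algebraMap (ZMod p) K) := (algebraMap (ZMod p) K).injective
    apply hinj
    simp only [map_add, map_sub, map_mul]
    simp only [emb] at hs2 hs2' hr2
    rcases LinCase_ne hq with h | h
    · apply mul_left_cancel₀ h
      linear_combination (algebraMap (ZMod p) K (s' 1) - algebraMap (ZMod p) K (s 1)) * (hr2 - hs2)
        - (algebraMap (ZMod p) K (r 1) - algebraMap (ZMod p) K (s 1)) * (hs2' - hs2)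
    · apply mul_left_cancel₀ h
      linear_combination (algebraMap (ZMod p) K (s 0) - algebraMap (ZMod p) K (s' 0)) * (hr2 - hs2)
        + (algebraMap (ZMod p) K (r 0) - algebraMap (ZMod p) K (s 0)) * (hs2' - hs2)

end KB30
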