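import Pool.Agent.W_3ac1bb_h30.Curve
import Pool.Agent.W_3ac1bb_h30.LinCase

set_option autoImplicit false

namespace KB30

open MvPolynomial

variable {p k : ℕ} [Fact p.Prime]

theorem Factor_emb_injective (K : Type) [Field K] [Algebra (ZMod p) K] :
    Function.Injective (emb K : (Fin 2 → ZMod p) → Pt K) := by
  intro s s' h
  funext i
  exact (algebraMap (ZMod p) K).injective (congrFun h i)

theorem Factor_irr_deg {K : Type} [Field K] {q : MP K} (hq : Irreducible q) :
    1 ≤ q.totalDegree := by
  by_contra h
  have h1 : q.totalDegree = 0 := by omega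
  rw [totalDegree_eq_zero_iff_eq_C] at h1
  have h2 : coeff 0 q ≠ 0 := by
    intro h3
    rw [h3, C_0] at h1
    exact hq.ne_zero h1
  apply hq.not_isUnit
  rw [h1]
  exact (isUnit_iff_ne_zero.2 h2).map C

/-- PROOF: for an irreducible `q`, `1 ≤ totalDegree q ≤ M` (irreducible polynomials are not constant): if
`totalDegree q ≥ 2`, `curve_bound` (the points `emb K s` satisfy `z i ^ p = z i`: `ZMod.pow_card`; `emb` is injective):
`2 |E_q| ≤ d (d + p - 1) ≤ d (M + p)`; if `totalDegree q = 1`, `lin_case`: `k |E_q| ≤ k (p+1) - A.card`, and `hn` gives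
`2 |E_q| ≤ p ≤ M + p`. -/
theorem irr_bound {K : Type} [Field K] [DecidableEq K] [Infinite K] [Algebra (ZMod p) K]
    {A : Finset (Fin 2 → ZMod p)} (hA : Bdd p k A) (hn : 2 * (k * (p + 1)) ≤ 2 * A.card + k * p)
    (hk : 0 < k) {M : ℕ} (hM : M < p) {q : MP K} (hq : Irreducible q) (hqM : q.totalDegree ≤ M) :
    2 * (Finset.univ.filter fun s : Fin 2 → ZMod p =>
      F A s = 0 ∧ eval (emb K s) q = 0).card ≤ q.totalDegree * (M + p) := by
  have h1 := Factor_irr_deg hq
  obtain ⟨E, hE⟩ : ∃ E, E = Finset.univ.filter fun s : Fin 2 → ZMod p =>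
    F A s = 0 ∧ eval (emb K s) q = 0 := ⟨_, rfl⟩
  rw [← hE]
  rcases Nat.eq_or_lt_of_le h1 with h2 | h2
  · have h3 := lin_case hA h2.symm
    rw [← hE] at h3
    rw [← h2, one_mul]
    have h4 : k * (2 * E.card) ≤ k * p := by
      have : k * (2 * E.card) = 2 * (k * E.card) := by ring
      omega
    have h5 := Nat.le_of_mul_le_mul_left h4 hk
    omega
  · have hchar : CharP K p := charP_of_injective_algebraMap (algebraMap (ZMod p) K).injective p
    have hp : p.Prime := Fact.out
    have h3 := curve_bound hp hq h2 (by omega) (E.image (emb K))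
      (by
        intro z hz i
        rw [Finset.mem_image] at hz
        obtain ⟨s, _, rfl⟩ := hz
        show (algebraMap (ZMod p) K (s i)) ^ p = algebraMap (ZMod p) K (s i)
        rw [← map_pow, ZMod.pow_card])
      (by
        intro z hz
        rw [Finset.mem_image] at hz
        obtain ⟨s, hs, rfl⟩ := hz
        rw [hE, Finset.mem_filter] at hs
        exact hs.2.2)
    rw [Finset.card_image_of_injective _ (Factor_emb_injective K)] at h3
    exact h3.trans (Nat.mul_le_mul_left _ (by omega))

/-- PROOF: `WfDvdMonoid.induction_on_irreducible` on `g` (zero: excluded; a unit has no zeros; `q * g`: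
the zero set of a product is the union, `totalDegree_mul_of_isDomain`), `irr_bound`. -/
theorem factor_bound {K : Type} [Field K] [DecidableEq K] [Infinite K] [Algebra (ZMod p) K]
    {A : Finset (Fin 2 → ZMod p)} (hA : Bdd p k A) (hn : 2 * (k * (p + 1)) ≤ 2 * A.card + k * p)
    (hk : 0 < k) {M : ℕ} (hM : M < p) {g : MP K} (hg : g ≠ 0) (hgM : g.totalDegree ≤ M) :
    2 * (Finset.univ.filter fun s : Fin 2 → ZMod p =>
      F A s = 0 ∧ eval (emb K s) g = 0).card ≤ g.totalDegree * (M + p) := by
  induction g using WfDvdMonoid.induction_on_irreducible with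
  | zero => exact absurd rfl hg
  | unit u hu =>
    have h1 : (Finset.univ.filter fun s : Fin 2 → ZMod p =>
        F A s = 0 ∧ eval (emb K s) u = 0) = ∅ := by
      rw [Finset.filter_eq_empty_iff]
      intro s _ h2
      exact (hu.map (eval (emb K s))).ne_zero h2.2
    rw [h1, Finset.card_empty, mul_zero]
    exact Nat.zero_le _
  | mul a i ha hi ih =>
    have hdeg := totalDegree_mul_of_isDomain hi.ne_zero ha
    have h1 := ih ha (by omega)
    have h2 := irr_bound (K := K) hA hn hk hM hi (by omega)
    have h3 : (Finset.univ.filter fun s : Fin 2 → ZMod p =>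
        F A s = 0 ∧ eval (emb K s) (i * a) = 0) ⊆
        (Finset.univ.filter fun s : Fin 2 → ZMod p => F A s = 0 ∧ eval (emb K s) i = 0) ∪
        (Finset.univ.filter fun s : Fin 2 → ZMod p => F A s = 0 ∧ eval (emb K s) a = 0) := by
      intro s hs
      simp only [Finset.mem_filter, Finset.mem_univ, true_and, Finset.mem_union, map_mul,
        mul_eq_zero] at hs ⊢
      tauto
    have h4 := (Finset.card_le_card h3).trans (Finset.card_union_le _ _)
    rw [hdeg, add_mul]
    omega

end KB30
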