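import Pool.Agent.W_3ac1bb_h30.DimQ

set_option autoImplicit false

/-! The polynomial `frob p q + q` vanishes to second order at the `F_p`-points of `q`. -/

namespace KB30

open MvPolynomial

variable {K : Type} [Field K]

theorem eval_frob {p : ℕ} (q : MP K) (z : Pt K) (hz : ∀ i, z i ^ p = z i) :
    eval z (frob p q) = 0 := by
  simp [frob, hz]

/-- PROOF: `pderiv 0 (X 0 ^ p - X 0) = - 1` in characteristic `p`, `pderiv 1` of it is `0`; product rule. -/
theorem dirD_frob {p : ℕ} [CharP K p] (q : MP K) (v z : Pt K) (hz : ∀ i, z i ^ p = z i) :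
    dirD v z (frob p q + q) = 0 := by
  have hp : ((p : ℕ) : MP K) = 0 := CharP.cast_eq_zero (MP K) p
  have h0 : eval z (pderiv 0 (frob p q + q)) = 0 := by
    simp [frob, pderiv_mul, pderiv_pow, hz]
  have h1 : eval z (pderiv 1 (frob p q + q)) = 0 := by
    simp [frob, pderiv_mul, pderiv_pow, hp, hz]
  rw [dirD, h0, h1, mul_zero, mul_zero, add_zero]

/-- `totalDegree (pderiv i q) + 1 ≤ totalDegree q` unless the derivative is zero. PROOF: every monomial of
`pderiv i q` is a monomial of `q` divided by `X i` (`MvPolynomial.pderiv` on monomials). -/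
theorem totalDegree_pderiv (q : MP K) (i : Fin 2) :
    (pderiv i q).totalDegree ≤ q.totalDegree - 1 := by
  rw [totalDegree]
  refine Finset.sup_le fun m hm => ?_
  rw [mem_support_iff, coeff_pderiv] at hm
  have h1 : coeff (m + Finsupp.single i 1) q ≠ 0 := fun h => hm (by rw [h, zero_mul])
  have h2 := le_totalDegree (mem_support_iff.2 h1)
  have h3 : ((m + Finsupp.single i 1).sum fun _ e => e) = (m.sum fun _ e => e) + 1 := by
    rw [Finsupp.sum_add_index' (fun _ => rfl) (fun _ _ _ => rfl), Finsupp.sum_single_index rfl]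
  rw [h3] at h2
  exact Nat.le_sub_one_of_lt h2

theorem totalDegree_frob {p : ℕ} (hp : 2 ≤ p) (q : MP K) (hq : 1 ≤ q.totalDegree) :
    (frob p q + q).totalDegree ≤ q.totalDegree + p - 1 := by
  have h1 : ∀ i : Fin 2, ((X i ^ p - X i : MP K) * pderiv i q).totalDegree ≤
      q.totalDegree + p - 1 := by
    intro i
    have h2 : (X i ^ p - X i : MP K).totalDegree ≤ p := by
      refine (totalDegree_sub _ _).trans (max_le ?_ ?_)
      · exact (totalDegree_X_pow i p).le
      · rw [totalDegree_X]
        omega
    have h3 := totalDegree_pderiv q i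
    have h4 := totalDegree_mul (X i ^ p - X i : MP K) (pderiv i q)
    omega
  refine (totalDegree_add _ _).trans (max_le ((totalDegree_add _ _).trans
    (max_le (h1 0) (h1 1))) ?_)
  omega

/-- PROOF: if both derivatives vanish, every exponent of every monomial of `q` is divisible by `p` (coefficient of
`pderiv i q`), so, as `totalDegree q < p`, `q` is constant, contradiction to `1 ≤ totalDegree q`. -/
theorem pderiv_ne_zero {p : ℕ} (hp : p.Prime) [CharP K p] (q : MP K) (h1 : 1 ≤ q.totalDegree)
    (h2 : q.totalDegree < p) : pderiv 0 q ≠ 0 ∨ pderiv 1 q ≠ 0 := by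
  by_contra hcon
  push Not at hcon
  have h3 : ∀ i : Fin 2, pderiv i q = 0 := by
    intro i
    fin_cases i
    · exact hcon.1
    · exact hcon.2
  have h4 : q.totalDegree = 0 := by
    rw [totalDegree_eq_zero_iff]
    intro m hm i
    by_contra hmi
    have h5 : Finsupp.single i 1 ≤ m := by
      rw [Finsupp.single_le_iff]
      omega
    have h6 := coeff_pderiv (i := i) q (m - Finsupp.single i 1)
    rw [h3 i, coeff_zero, tsub_add_cancel_of_le h5] at h6
    have h7 : (((m - Finsupp.single i 1 : Fin 2 →₀ ℕ) i : ℕ) : K) + 1 = (m i : K) := by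
      have h8 : (m - Finsupp.single i 1 : Fin 2 →₀ ℕ) i + 1 = m i := by
        rw [Finsupp.tsub_apply, Finsupp.single_eq_same]
        omega
      rw [← h8]
      push_cast
      rfl
    rw [h7] at h6
    have h9 : (m i : K) = 0 := by
      rcases mul_eq_zero.1 h6.symm with h | h
      · exact absurd h (mem_support_iff.1 hm)
      · exact h
    have h10 := Nat.le_of_dvd (by omega) ((CharP.cast_eq_zero_iff K p (m i)).1 h9)
    have h11 : m i ≤ q.totalDegree := by
      refine le_trans ?_ (le_totalDegree hm)
      exact Finset.single_le_sum (f := fun j => m j) (fun _ _ => Nat.zero_le _)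
        (Finsupp.mem_support_iff.2 hmi)
    omega
  omega

end KB30
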