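import Pool.Agent.W_3ac1bb_h30.DimQ

set_option autoImplicit false

namespace KB30

open MvPolynomial

variable {K : Type} [Field K]

theorem GcdMax_degree_pos {q : MP K} (hq : Irreducible q) : 1 ≤ q.totalDegree := by
  by_contra h
  have h0 : q.totalDegree = 0 := by omega
  rw [totalDegree_eq_zero_iff_eq_C] at h0
  by_cases hc : q.coeff 0 = 0
  · rw [hc, C_0] at h0
    exact hq.ne_zero h0
  · apply hq.not_isUnit
    rw [h0]
    exact (isUnit_iff_ne_zero.2 hc).map C

/-- PROOF: let `g` be a common divisor of `V` of maximal total degree (the total degree of a common divisor is at most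
that of a nonzero element of `V`; `1` is a common divisor; `Nat.find`/`Nat.findGreatest`). `g ≠ 0` as it divides a nonzero
element. If `g * q` divided all elements of `V`, `q` irreducible, then `totalDegree (g q) > totalDegree g`
(`totalDegree_mul_of_isDomain`; `totalDegree q ≥ 1`, as otherwise `q` is a constant, a unit or zero). -/
theorem exists_gcd (V : Submodule K (MP K)) (hV : V ≠ ⊥) :
    ∃ g : MP K, g ≠ 0 ∧ (∀ P ∈ V, g ∣ P) ∧ ∀ q : MP K, Irreducible q → ∃ P ∈ V, ¬ g * q ∣ P := by
  classical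
  obtain ⟨P0, hP0, hne⟩ := V.exists_mem_ne_zero_of_ne_bot hV
  let S : ℕ → Prop := fun d => ∃ g : MP K, (∀ P ∈ V, g ∣ P) ∧ g.totalDegree = d
  have hbd : ∀ g : MP K, (∀ P ∈ V, g ∣ P) → g.totalDegree ≤ P0.totalDegree := by
    intro g hg
    obtain ⟨c, hc⟩ := hg P0 hP0
    have hg0 : g ≠ 0 := by
      rintro rfl
      exact hne (by rw [hc, zero_mul])
    have hc0 : c ≠ 0 := by
      rintro rfl
      exact hne (by rw [hc, mul_zero])
    rw [hc, totalDegree_mul_of_isDomain hg0 hc0]
    omega
  have h0 : S 0 := ⟨1, fun P _ => one_dvd P, totalDegree_one⟩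
  obtain ⟨g, hg, hgd⟩ : S (Nat.findGreatest S P0.totalDegree) :=
    Nat.findGreatest_spec (Nat.zero_le _) h0
  have hg0 : g ≠ 0 := by
    rintro rfl
    exact hne (zero_dvd_iff.1 (hg P0 hP0))
  refine ⟨g, hg0, hg, ?_⟩
  intro q hq
  by_contra hcon
  push Not at hcon
  have h1 : (g * q).totalDegree ≤ Nat.findGreatest S P0.totalDegree :=
    Nat.le_findGreatest (hbd _ hcon) ⟨g * q, hcon, rfl⟩
  rw [totalDegree_mul_of_isDomain hg0 hq.ne_zero, hgd] at h1
  have := GcdMax_degree_pos hq
  omega

/-- PROOF: take `j1 ∈ J`, `j1 ≠ 0`. If `j1` is a unit take `j2 = j1`. Otherwise let `q_1, …, q_s` be the irreducible factors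
of `j1` (`UniqueFactorizationMonoid.factors j1`, finitely many). The subspaces `{j ∈ J : q_i ∣ j}` of `J` are proper; `K` is
infinite, so they do not cover `J` (`Subspace.biUnion_ne_univ_of_top_notMem` or similar, or
`Submodule.iUnion_ssubset...`): `j2` outside all of them. Then no irreducible factor of `j1` divides `j2`, so
`j1 ∣ j2 b` implies `j1 ∣ b` (`IsRelPrime`, `UniqueFactorizationMonoid` is a `DecompositionMonoid`). `j2 ≠ 0` since `q_1` does
not divide it. -/
theorem exists_coprime [Infinite K] (J : Submodule K (MP K)) (hJ0 : J ≠ ⊥)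
    (hJ : ∀ q : MP K, Irreducible q → ∃ j ∈ J, ¬ q ∣ j) :
    ∃ j1 ∈ J, ∃ j2 ∈ J, j1 ≠ 0 ∧ j2 ≠ 0 ∧ Cop j1 j2 := by
  classical
  obtain ⟨j1, hj1, hne⟩ := J.exists_mem_ne_zero_of_ne_bot hJ0
  by_cases hu : IsUnit j1
  · exact ⟨j1, hj1, j1, hj1, hne, hne, fun b _ => hu.dvd⟩
  let fs := (UniqueFactorizationMonoid.factors j1).toFinset
  let W : MP K → Submodule K J := fun q =>
    { carrier := {j | q ∣ (j : MP K)}
      add_mem' := fun {a b} ha hb => by
        show q ∣ ((a + b : J) : MP K)
        rw [Submodule.coe_add]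
        exact dvd_add ha hb
      zero_mem' := by
        show q ∣ ((0 : J) : MP K)
        rw [Submodule.coe_zero]
        exact dvd_zero q
      smul_mem' := fun c x hx => by
        show q ∣ ((c • x : J) : MP K)
        rw [Submodule.coe_smul, smul_eq_C_mul]
        exact dvd_mul_of_dvd_right hx _ }
  have htop : (⊤ : Submodule K J) ∉ fs.image W := by
    intro h
    rw [Finset.mem_image] at h
    obtain ⟨q, hq, hW⟩ := h
    have hqi : Irreducible q :=
      UniqueFactorizationMonoid.irreducible_of_factor q (Multiset.mem_toFinset.1 hq)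
    obtain ⟨j, hj, hnd⟩ := hJ q hqi
    have h2 : (⟨j, hj⟩ : J) ∈ W q := by rw [hW]; exact Submodule.mem_top
    exact hnd h2
  have hcov := Subspace.biUnion_ne_univ_of_top_notMem htop
  have hex : ∃ x : J, x ∉ ⋃ p ∈ fs.image W, (p : Set J) := by
    by_contra hcon
    push Not at hcon
    exact hcov (Set.eq_univ_of_forall hcon)
  obtain ⟨x, hx⟩ := hex
  have hx2 : ∀ q ∈ UniqueFactorizationMonoid.factors j1, ¬ q ∣ (x : MP K) := by
    intro q hq hd
    apply hx
    simp only [Set.mem_iUnion, SetLike.mem_coe]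
    exact ⟨W q, Finset.mem_image_of_mem W (Multiset.mem_toFinset.2 hq), hd⟩
  obtain ⟨q0, hq0⟩ := UniqueFactorizationMonoid.exists_mem_factors hne hu
  refine ⟨j1, hj1, x, x.2, hne, ?_, ?_⟩
  · intro h
    apply hx2 q0 hq0
    rw [h]
    exact dvd_zero q0
  · intro b hb
    refine UniqueFactorizationMonoid.dvd_of_dvd_mul_right_of_no_prime_factors hne ?_ hb
    intro d hd1 hd2 hdp
    obtain ⟨q, hq, hass⟩ :=
      UniqueFactorizationMonoid.exists_mem_factors_of_dvd hne hdp.irreducible hd1
    exact hx2 q hq (hass.symm.dvd.trans hd2)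

end KB30
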