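import Pool.Agent.W_3ac1bb_h30.DimQ

set_option autoImplicit false

namespace KB30

open MvPolynomial

variable {K : Type} [Field K]

noncomputable def Iso_form {ι : Type} [Fintype ι] (W : ι → K) : LinearMap.BilinForm K (ι → K) :=
  LinearMap.mk₂ K (fun f g => ∑ b, W b * (f b * g b))
    (by intro f f' g; rw [← Finset.sum_add_distrib]
        exact Finset.sum_congr rfl fun b _ => by simp only [Pi.add_apply]; ring)
    (by intro c f g; rw [Finset.smul_sum]
        exact Finset.sum_congr rfl fun b _ => by simp only [Pi.smul_apply, smul_eq_mul]; ring)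
    (by intro f g g'; rw [← Finset.sum_add_distrib]
        exact Finset.sum_congr rfl fun b _ => by simp only [Pi.add_apply]; ring)
    (by intro c f g; rw [Finset.smul_sum]
        exact Finset.sum_congr rfl fun b _ => by simp only [Pi.smul_apply, smul_eq_mul]; ring)

theorem Iso_form_apply {ι : Type} [Fintype ι] (W : ι → K) (f g : ι → K) :
    Iso_form W f g = ∑ b, W b * (f b * g b) := rfl

theorem Iso_symm {ι : Type} [Fintype ι] (W : ι → K) (f g : ι → K) :
    Iso_form W f g = Iso_form W g f := by
  rw [Iso_form_apply, Iso_form_apply]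
  exact Finset.sum_congr rfl fun b _ => by ring

theorem Iso_nondeg {ι : Type} [Fintype ι] (W : ι → K) (hW : ∀ b, W b ≠ 0) :
    (Iso_form W).Nondegenerate := by
  classical
  have key : ∀ f : ι → K, (∀ g, Iso_form W f g = 0) → f = 0 := by
    intro f hf
    funext b
    have h1 := hf (Pi.single b 1)
    rw [Iso_form_apply, Finset.sum_eq_single b] at h1
    · rw [Pi.single_eq_same, mul_one] at h1
      exact (mul_eq_zero.1 h1).resolve_left (hW b)
    · intro c _ hc
      rw [Pi.single_eq_of_ne hc, mul_zero, mul_zero]
    · intro h; exact absurd (Finset.mem_univ b) h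
  constructor
  · intro f hf; exact key f hf
  · intro f hf; exact key f fun g => by rw [Iso_symm]; exact hf g

/-- An isotropic subspace has at most half the dimension. PROOF: the bilinear form `∑ W_b f_b g_b` on `ι → K` is
nondegenerate; `V ≤ Vᗮ` and `finrank V + finrank Vᗮ = card ι`. (Or: the map `V → Dual ((ι → K) ⧸ V)`,
`f ↦ (g ↦ ∑ W f g)`, is well defined and injective, so `finrank V ≤ card ι - finrank V`.) -/
theorem isotropic {ι : Type} [Fintype ι] (W : ι → K) (hW : ∀ b, W b ≠ 0)
    (V : Submodule K (ι → K)) (h : ∀ f ∈ V, ∀ g ∈ V, ∑ b, W b * (f b * g b) = 0) :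
    2 * Module.finrank K V ≤ Fintype.card ι := by
  have h1 := LinearMap.BilinForm.finrank_orthogonal (Iso_nondeg W hW) V
  have h2 : V ≤ (Iso_form W).orthogonal V := by
    intro f hf
    rw [LinearMap.BilinForm.mem_orthogonal_iff]
    intro g hg
    exact h g hg f hf
  have h3 := Submodule.finrank_mono h2
  have h4 : Module.finrank K (ι → K) = Fintype.card ι := Module.finrank_fintype_fun_eq_card K
  have h5 := Submodule.finrank_le V
  omega

/-- PROOF: `V = map (evZ B) (Q D)` is isotropic (products are in `Q (2D)`), and
`finrank V + finrank (van B D) = finrank (Q D)` (rank-nullity for `(evZ B).domRestrict (Q D)`), `finrank_Q`. -/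
theorem finrank_van (D : ℕ) (B : Finset (Pt K)) (W : Pt K → K) (hW : ∀ z ∈ B, W z ≠ 0)
    (hsum : ∀ P ∈ Q K (2 * D), ∑ z ∈ B, W z * eval z P = 0) :
    (D + 1) * (D + 2) ≤ 2 * Module.finrank K (van B D) + B.card := by
  have hfin : Module.Finite K (Q K D) := by
    refine Module.finite_of_finrank_pos ?_
    have := finrank_Q (K := K) D
    by_contra hcon
    have h0 : Module.finrank K (Q K D) = 0 := by omega
    rw [h0] at this
    have : 0 < (D + 1) * (D + 2) := by positivity
    omega
  have h1 := LinearMap.finrank_range_add_finrank_ker ((evZ B).domRestrict (Q K D))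
  have h2 : Module.finrank K (LinearMap.ker ((evZ B).domRestrict (Q K D)))
      = Module.finrank K (van B D) := by
    have e : LinearMap.ker ((evZ B).domRestrict (Q K D))
        = Submodule.comap (Q K D).subtype (LinearMap.ker (evZ B)) := by
      ext P
      rfl
    rw [e, ← Submodule.finrank_map_subtype_eq, Submodule.map_comap_subtype]
    rfl
  have h3 := isotropic (fun z : B => W z.1) (fun z => hW z.1 z.2)
    (LinearMap.range ((evZ B).domRestrict (Q K D))) (by
      rintro _ ⟨P, rfl⟩ _ ⟨R, rfl⟩
      have h4 := hsum (P.1 * R.1) (by rw [two_mul]; exact mul_mem_Q P.2 R.2)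
      rw [← Finset.sum_coe_sort] at h4
      rw [← h4]
      refine Finset.sum_congr rfl fun z _ => ?_
      rw [LinearMap.domRestrict_apply, LinearMap.domRestrict_apply, evZ_apply, evZ_apply, map_mul])
  rw [Fintype.card_coe] at h3
  have h5 := finrank_Q (K := K) D
  omega

end KB30
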