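import Pool.Agent.W_3ac1bb_h30.Reg
import Pool.Agent.W_3ac1bb_h30.Iso
import Pool.Agent.W_3ac1bb_h30.GcdMax

set_option autoImplicit false

namespace KB30

open MvPolynomial

variable {K : Type} [Field K] [Infinite K]

/-- (Lopez–Pirola type lemma.) PROOF. `V = van B D`; by `finrank_van` (`Q (2D) ≤ Q (2D+1)`) and `hB` it is not `⊥`, and
`(D+1)(D+2) - |B| ≤ 2 finrank V`. `exists_gcd`: `g`, `m = totalDegree g ≤ D` (it divides a nonzero element of `Q D`).
`J = {j | g * j ∈ V} = V.comap (mulLeft g)`, `V = map (mulLeft g) J`, `J ≤ Q (D - m)` (`mul_mem_Q_iff`), so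
`finrank V = finrank J ≤ finrank (Q (D-m))`, i.e. `(D+1)(D+2) - |B| ≤ (D-m+1)(D-m+2)`, which is
`m (2D + 3 - m) ≤ |B|`. `exists_coprime` for `J` (an irreducible `q` dividing all `j ∈ J` would give `g q ∣ P` for all
`P ∈ V`): `j1, j2`. Let `B1 = B.filter (eval · g ≠ 0)`: on `B1` the polynomials `j1, j2` vanish (`g j1` vanishes on `B`).
`regularity` with `a = D - m`, `w z = W z * eval z g`: for `P ∈ Q (2a-2)`, `g P ∈ Q (m + 2a - 2) ≤ Q (2D + 1)` and the sum over
`B1` equals the sum over `B`. So `B1 = ∅`. -/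
theorem lopez_pirola (D : ℕ) (B : Finset (Pt K)) (W : Pt K → K) (hW : ∀ z ∈ B, W z ≠ 0)
    (hsum : ∀ P ∈ Q K (2 * D + 1), ∑ z ∈ B, W z * eval z P = 0)
    (hB : B.card < (D + 1) * (D + 2)) :
    ∃ g : MP K, g ≠ 0 ∧ g.totalDegree ≤ D ∧
      g.totalDegree * (2 * D + 3 - g.totalDegree) ≤ B.card ∧ ∀ z ∈ B, eval z g = 0 := by
  classical
  have hvan : ∀ P : MP K, P ∈ van B D ↔ P ∈ Q K D ∧ ∀ z ∈ B, eval z P = 0 := by
    intro P
    rw [van, Submodule.mem_inf, LinearMap.mem_ker]
    refine and_congr Iff.rfl ⟨fun h z hz => ?_, fun h => ?_⟩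
    · have h1 := congrFun h ⟨z, hz⟩
      rwa [evZ_apply] at h1
    · funext z
      rw [evZ_apply]
      exact h z.1 z.2
  have hfin : ∀ e : ℕ, Module.Finite K (Q K e) := by
    intro e
    apply Module.finite_of_finrank_pos
    have h1 := finrank_Q (K := K) e
    have h2 : 0 < (e + 1) * (e + 2) := by positivity
    omega
  have hdim := finrank_van D B W hW (fun P hP => hsum P (Q_mono (Nat.le_succ _) hP))
  have hV : van B D ≠ ⊥ := by
    intro h0
    rw [h0, finrank_bot] at hdim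
    omega
  obtain ⟨g, hg0, hgV, hgq⟩ := exists_gcd (van B D) hV
  obtain ⟨P0, hP0, hP00⟩ := Submodule.exists_mem_ne_zero_of_ne_bot hV
  have hmD : g.totalDegree ≤ D := by
    obtain ⟨c, hc⟩ := hgV P0 hP0
    have hc0 : c ≠ 0 := by
      rintro rfl
      exact hP00 (by rw [hc, mul_zero])
    have h1 := totalDegree_mul_of_isDomain hg0 hc0
    have h2 := mem_Q.1 ((hvan P0).1 hP0).1
    rw [hc, h1] at h2
    omega
  set m := g.totalDegree with hm
  obtain ⟨a, ha⟩ : ∃ a, D = m + a := ⟨D - m, by omega⟩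
  set J : Submodule K (MP K) := (van B D).comap (LinearMap.mulLeft K g) with hJ
  have hJmem : ∀ j : MP K, j ∈ J ↔ g * j ∈ van B D := fun j => Iff.rfl
  have hJQ : J ≤ Q K a := by
    intro j hj
    have h1 := ((hvan _).1 ((hJmem j).1 hj)).1
    rw [ha] at h1
    exact (mul_mem_Q_iff hg0 a).1 h1
  have hmap : J.map (LinearMap.mulLeft K g) = van B D := by
    apply le_antisymm
    · rintro _ ⟨j, hj, rfl⟩
      exact hj
    · intro P hP
      obtain ⟨c, hc⟩ := hgV P hP
      refine ⟨c, ?_, hc.symm⟩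
      show g * c ∈ van B D
      rw [← hc]
      exact hP
  have hrank : 2 * Module.finrank K (van B D) ≤ (a + 1) * (a + 2) := by
    rw [← hmap, finrank_map_mul hg0, ← finrank_Q (K := K) a]
    haveI := hfin a
    exact Nat.mul_le_mul_left 2 (Submodule.finrank_mono hJQ)
  have hJ0 : J ≠ ⊥ := by
    intro h0
    apply hV
    rw [← hmap, h0, Submodule.map_bot]
  obtain ⟨j1, hj1, j2, hj2, h1, h2, hc⟩ := exists_coprime J hJ0 (by
    intro q hq
    obtain ⟨P, hP, hPq⟩ := hgq q hq
    obtain ⟨c, hc⟩ := hgV P hP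
    refine ⟨c, ?_, fun hqc => hPq ?_⟩
    · rw [hJmem, ← hc]
      exact hP
    · rw [hc]
      exact mul_dvd_mul_left g hqc)
  have hB1 : B.filter (fun z => eval z g ≠ 0) = ∅ := by
    have hvj : ∀ j ∈ J, ∀ z ∈ B.filter (fun z => eval z g ≠ 0), eval z j = 0 := by
      intro j hj z hz
      have hz' := Finset.mem_filter.mp hz
      have h3 := ((hvan _).1 ((hJmem j).1 hj)).2 z hz'.1
      rw [map_mul] at h3
      exact (mul_eq_zero.mp h3).resolve_left hz'.2
    refine regularity h1 h2 hc (a := a) (hJQ hj1) (hJQ hj2) _ (hvj j1 hj1) (hvj j2 hj2)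
      (fun z => W z * eval z g) (fun z hz => ?_) (fun P hP => ?_)
    · have hz' := Finset.mem_filter.mp hz
      exact mul_ne_zero (hW z hz'.1) hz'.2
    · have h3 : g * P ∈ Q K (2 * D + 1) := by
        have h4 : g ∈ Q K m := mem_Q.2 le_rfl
        exact Q_mono (by omega) (mul_mem_Q h4 hP)
      have h5 := hsum _ h3
      have h6 : ∀ z, W z * eval z (g * P) = W z * eval z g * eval z P := by
        intro z
        rw [map_mul, mul_assoc]
      simp only [h6] at h5
      have h8 : ∑ z ∈ B.filter (fun z => eval z g ≠ 0), W z * eval z g * eval z P =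
          ∑ z ∈ B, W z * eval z g * eval z P := by
        refine Finset.sum_filter_of_ne (fun z _ hz h7 => hz ?_)
        rw [h7, mul_zero, zero_mul]
      exact h8.trans h5
  refine ⟨g, hg0, hmD, ?_, fun z hz => ?_⟩
  · have h3 : 2 * D + 3 - m = m + 2 * a + 3 := by omega
    rw [← hm, h3]
    rw [ha] at hdim
    rw [ha] at hrank
    nlinarith
  · by_contra hz0
    have h3 : z ∈ B.filter (fun z => eval z g ≠ 0) := Finset.mem_filter.mpr ⟨hz, hz0⟩
    rw [hB1] at h3
    exact Finset.notMem_empty z h3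

end KB30
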