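import Pool.Agent.W_3ac1bb_h30.DimQ

set_option autoImplicit false

/-! Restriction to the line `X 1 = μ X 0 + c`. -/

namespace KB30

open MvPolynomial

variable {K : Type} [Field K]

theorem lineHom_lift0 (μ c : K) (f : Polynomial K) : lineHom μ c (lift0 f) = f := by
  have h : (lineHom μ c).comp (lift0 (K := K)) = AlgHom.id K (Polynomial K) := by
    apply Polynomial.algHom_ext
    simp [lineHom, lift0]
  have h2 := DFunLike.congr_fun h f
  simpa using h2

theorem lineHom_lin (μ c : K) : lineHom μ c (lin μ) = Polynomial.C c := by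
  simp [lineHom, lin]

/-- PROOF: `P` is a sum of monomials (`MvPolynomial.support_sum_monomial_coeff`,
`aeval_def`/`eval₂`), each of degree at most `totalDegree` (`le_totalDegree`); or by
`Polynomial.natDegree_sum_le_of_forall_le`. -/
theorem natDegree_lineHom_le (μ c : K) (P : MP K) :
    (lineHom μ c P).natDegree ≤ P.totalDegree := by
  rw [lineHom, aeval_def, eval₂_eq']
  refine Polynomial.natDegree_sum_le_of_forall_le _ _ fun d hd => ?_
  have h1 : (d.sum fun _ e => e) ≤ P.totalDegree := le_totalDegree hd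
  rw [Finsupp.sum_fintype _ _ (fun _ => rfl), Fin.sum_univ_two] at h1
  refine le_trans ?_ h1
  rw [Fin.prod_univ_two]
  simp only [Matrix.cons_val_zero, Matrix.cons_val_one]
  have h2 : (Polynomial.X ^ d 0 : Polynomial K).natDegree ≤ d 0 := by
    rw [Polynomial.natDegree_X_pow]
  have h3 : ((Polynomial.C μ * Polynomial.X + Polynomial.C c) ^ d 1 : Polynomial K).natDegree ≤
      d 1 := by
    refine Polynomial.natDegree_pow_le.trans ?_
    have h4 : (Polynomial.C μ * Polynomial.X + Polynomial.C c : Polynomial K).natDegree ≤ 1 :=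
      Polynomial.natDegree_linear_le
    calc d 1 * (Polynomial.C μ * Polynomial.X + Polynomial.C c : Polynomial K).natDegree ≤
        d 1 * 1 := Nat.mul_le_mul_left _ h4
      _ = d 1 := mul_one _
  have h5 : (algebraMap K (Polynomial K) (coeff d P)).natDegree = 0 := Polynomial.natDegree_C _
  refine Polynomial.natDegree_mul_le.trans ?_
  rw [h5, zero_add]
  exact Polynomial.natDegree_mul_le.trans (Nat.add_le_add h2 h3)

theorem totalDegree_lift0_le (f : Polynomial K) : (lift0 f : MP K).totalDegree ≤ f.natDegree := by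
  rw [lift0, Polynomial.aeval_eq_sum_range]
  refine totalDegree_finsetSum_le fun i hi => ?_
  refine (totalDegree_smul_le _ _).trans ?_
  rw [totalDegree_X_pow]
  exact Nat.lt_succ_iff.mp (Finset.mem_range.mp hi)

theorem lin_ne (μ c : K) : lin μ - C c ≠ 0 ∧ (lin μ - C c : MP K).totalDegree = 1 := by
  have hc : coeff (Finsupp.single (1 : Fin 2) 1) (lin μ - C c : MP K) = 1 := by
    rw [lin, coeff_sub, coeff_sub, coeff_C_mul, coeff_X, coeff_X, coeff_C]
    have h1 : Finsupp.single (0 : Fin 2) 1 ≠ Finsupp.single (1 : Fin 2) 1 := by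
      intro h
      have := DFunLike.congr_fun h 0
      simp at this
    have h2 : (0 : Fin 2 →₀ ℕ) ≠ Finsupp.single (1 : Fin 2) 1 := by
      intro h
      have := DFunLike.congr_fun h 1
      simp at this
    rw [if_pos rfl, if_neg h1, if_neg h2]
    simp
  have hne : (lin μ - C c : MP K) ≠ 0 := by
    intro h
    rw [h, coeff_zero] at hc
    exact zero_ne_one hc
  refine ⟨hne, le_antisymm ?_ ?_⟩
  · refine (totalDegree_sub _ _).trans (max_le ?_ ?_)
    · rw [lin]
      refine (totalDegree_sub _ _).trans (max_le ?_ ?_)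
      · rw [totalDegree_X]
      · refine (totalDegree_mul _ _).trans ?_
        rw [totalDegree_C, totalDegree_X]
    · rw [totalDegree_C]
      exact Nat.zero_le _
  · have h1 : Finsupp.single (1 : Fin 2) 1 ∈ (lin μ - C c : MP K).support := by
      rw [mem_support_iff, hc]
      exact one_ne_zero
    have h2 := le_totalDegree h1
    rwa [Finsupp.sum_single_index rfl] at h2

/-- PROOF: `P - lift0 (lineHom μ c P)` lies in the ideal generated by `lin μ - C c`: the two algebra
homomorphisms `mk` and `mk ∘ lift0 ∘ lineHom μ c` to `MP K ⧸ Ideal.span {lin μ - C c}` agree on `X 0` and `X 1`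
(`MvPolynomial.algHom_ext`, `Fin.forall_fin_two`). The degree: `mul_mem_Q_iff` with `lin_ne`. -/
theorem line_div (μ c : K) (P : MP K) (e : ℕ) (hP : P ∈ Q K (e + 1))
    (h0 : lineHom μ c P = 0) : ∃ P' ∈ Q K e, P = (lin μ - C c) * P' := by
  obtain ⟨hne, hdeg⟩ := lin_ne μ c
  let I : Ideal (MP K) := Ideal.span {lin μ - C c}
  have hhom : (Ideal.Quotient.mkₐ K I) =
      (Ideal.Quotient.mkₐ K I).comp ((lift0 (K := K)).comp (lineHom μ c)) := by
    apply MvPolynomial.algHom_ext
    rw [Fin.forall_fin_two]
    constructor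
    · simp [lineHom, lift0]
    · have h1 : lift0 (lineHom μ c (X 1)) = (C μ * X 0 + C c : MP K) := by
        simp [lineHom, lift0, algebraMap_eq]
      show Ideal.Quotient.mk I (X 1) = Ideal.Quotient.mk I (lift0 (lineHom μ c (X 1)))
      rw [h1, Ideal.Quotient.eq]
      have h2 : (X 1 - (C μ * X 0 + C c) : MP K) = lin μ - C c := by
        rw [lin]
        ring
      rw [h2]
      exact Ideal.subset_span rfl
  have h1 : Ideal.Quotient.mk I P = Ideal.Quotient.mk I (lift0 (lineHom μ c P)) :=
    DFunLike.congr_fun hhom P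
  rw [h0, map_zero, Ideal.Quotient.eq, sub_zero, Ideal.mem_span_singleton] at h1
  obtain ⟨P', hP'⟩ := h1
  refine ⟨P', ?_, hP'⟩
  rw [hP'] at hP
  refine (mul_mem_Q_iff hne e).1 ?_
  rw [hdeg, add_comm]
  exact hP

end KB30
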