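import Pool.Agent.W_3ac1bb_h30.LP
import Pool.Agent.W_3ac1bb_h30.Factor
import Pool.Agent.W_3ac1bb_h30.Dual
import Pool.Agent.W_3ac1bb_h30.Count
import Pool.Agent.W_3ac1bb_h30.Arith

set_option autoImplicit false

namespace KB30

open MvPolynomial

theorem main_emb_injective {p : ℕ} [Fact p.Prime] (K : Type) [Field K] [Algebra (ZMod p) K] :
    Function.Injective (emb K : (Fin 2 → ZMod p) → Pt K) := by
  intro s s' h
  funext i
  exact (algebraMap (ZMod p) K).injective (congrFun h i)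

/-- the theorem for sets of exactly the critical size -/
theorem main_aux (k : ℕ) (hk : 5 ≤ k) (p : ℕ) (hp : p.Prime) (hp0 : 1000 * k ^ 2 ≤ p)
    (A : Finset (Fin 2 → ZMod p)) (hA : Bdd p k A)
    (hn1 : ((k : ℝ) - 1 - 1 / (30 * k)) * p < A.card)
    (hn2 : (A.card : ℝ) ≤ ((k : ℝ) - 1 - 1 / (30 * k)) * p + 1) : False := by
  classical
  have : Fact p.Prime := ⟨hp⟩
  have hkp : k < p := by nlinarith
  have hp3 : 3 ≤ p := by omega
  obtain ⟨D, hD⟩ : ∃ D, p = 2 * D + 3 := by
    obtain ⟨j, hj⟩ := hp.odd_of_ne_two (by omega)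
    exact ⟨j - 1, by omega⟩
  let K := AlgebraicClosure (ZMod p)
  have hinf : Infinite K := IsAlgClosed.instInfinite
  have hchar : CharP K p := charP_of_injective_algebraMap (algebraMap (ZMod p) K).injective p
  have hinj := main_emb_injective (p := p) K
  obtain ⟨S, hS⟩ : ∃ S : Finset (Fin 2 → ZMod p), S = Finset.univ.filter fun s => F A s ≠ k :=
    ⟨_, rfl⟩
  obtain ⟨W, hW⟩ : ∃ W : Pt K → K, ∀ s : Fin 2 → ZMod p, W (emb K s) = (k : K) - (F A s : K) := by
    refine ⟨fun z => ∑ s ∈ Finset.univ.filter (fun s : Fin 2 → ZMod p => emb K s = z),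
      ((k : K) - (F A s : K)), fun s => ?_⟩
    have h1 : (Finset.univ.filter fun s' : Fin 2 → ZMod p => emb K s' = emb K s) = {s} := by
      ext s'
      simp only [Finset.mem_filter, Finset.mem_univ, true_and, Finset.mem_singleton]
      exact ⟨fun h => hinj h, fun h => by rw [h]⟩
    simp only [h1, Finset.sum_singleton]
  have hcard : (S.image (emb K)).card = N0 A + N1 k A := by
    rw [Finset.card_image_of_injective _ hinj, hS, N0, N1, ← Finset.card_union_of_disjoint]
    · congr 1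
      ext s
      have := F_le hA s
      simp only [Finset.mem_filter, Finset.mem_univ, true_and, Finset.mem_union]
      omega
    · rw [Finset.disjoint_left]
      intro s h1 h2
      simp only [Finset.mem_filter, Finset.mem_univ, true_and] at h1 h2
      omega
  have hWne : ∀ z ∈ S.image (emb K), W z ≠ 0 := by
    intro z hz
    rw [Finset.mem_image] at hz
    obtain ⟨s, hs, rfl⟩ := hz
    rw [hS, Finset.mem_filter] at hs
    rw [hW]
    have h1 := F_le hA s
    have h2 : ((k : K) - (F A s : K)) = ((k - F A s : ℕ) : K) := by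
      rw [Nat.cast_sub h1]
    rw [h2]
    intro h3
    rw [CharP.cast_eq_zero_iff K p] at h3
    have h4 := Nat.le_of_dvd (by have := hs.2; omega) h3
    omega
  have hsum : ∀ P ∈ Q K (2 * D + 1), ∑ z ∈ S.image (emb K), W z * eval z P = 0 := by
    intro P hP
    rw [Finset.sum_image fun a _ b _ h => hinj h]
    have h1 := sum_weights (K := K) hp3 k A P (by
      have := mem_Q.1 hP
      omega)
    rw [← h1, hS, Finset.sum_filter]
    refine Finset.sum_congr rfl fun s _ => ?_
    split_ifs with h2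
    · rw [hW]
    · rw [not_not] at h2
      rw [h2, sub_self, zero_mul]
  -- real inequalities
  have hkR : (5 : ℝ) ≤ k := by exact_mod_cast hk
  have hpR : 1000 * (k : ℝ) ^ 2 ≤ p := by exact_mod_cast hp0
  have hN1 : (0 : ℝ) ≤ N1 k A := Nat.cast_nonneg _
  have h1 : ((k : ℝ) - 1) * N1 k A ≤ A.card * (((k : ℝ) - 1) * p - A.card + k) := by
    exact_mod_cast count_N1 (by omega) hA
  have h2 : (k : ℝ) * p ^ 2 - p * A.card ≤ k * N0 A + ((k : ℝ) - 1) * N1 k A := by
    exact_mod_cast count_N0 (by omega) hA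
  have h3 : (k : ℝ) * N0 A + N1 k A ≤ (k : ℝ) * p ^ 2 - p * A.card := by
    exact_mod_cast count_S (by omega) hA
  have hS1 := arith_S hkR hpR hn1 hn2 hN1 h1 h3
  have hpD : (p : ℝ) = 2 * D + 3 := by exact_mod_cast hD
  have hp1000 : (1000 : ℝ) ≤ p := by nlinarith
  have hB : (S.image (emb K)).card < (D + 1) * (D + 2) := by
    rw [hcard]
    have h4 : ((N0 A + N1 k A : ℕ) : ℝ) < ((D + 1) * (D + 2) : ℕ) := by
      push_cast
      have h5 : (D : ℝ) = (p - 3) / 2 := by linarith
      rw [h5]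
      nlinarith
    exact_mod_cast h4
  obtain ⟨g, hg0, hgD, hgS, hgB⟩ := lopez_pirola D (S.image (emb K)) W hWne hsum hB
  have hmp : g.totalDegree < p := by omega
  have hn : 2 * (k * (p + 1)) ≤ 2 * A.card + k * p := by
    have h4 : ((2 * (k * (p + 1)) : ℕ) : ℝ) ≤ ((2 * A.card + k * p : ℕ) : ℝ) := by
      push_cast
      have h5 : 1 / (30 * (k : ℝ)) ≤ 1 / 150 := by
        apply one_div_le_one_div_of_le <;> linarith
      have h6 : ((k : ℝ) - 1 - 1 / 150) * p ≤ ((k : ℝ) - 1 - 1 / (30 * k)) * p :=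
        mul_le_mul_of_nonneg_right (by linarith) (by linarith)
      nlinarith
    exact_mod_cast h4
  have h5 := factor_bound (K := K) hA hn (by omega) hmp hg0 le_rfl
  have h6 : (Finset.univ.filter fun s : Fin 2 → ZMod p => F A s = 0 ∧ eval (emb K s) g = 0) =
      Finset.univ.filter fun s : Fin 2 → ZMod p => F A s = 0 := by
    ext s
    simp only [Finset.mem_filter, Finset.mem_univ, true_and]
    refine ⟨fun h => h.1, fun h => ⟨h, hgB _ ?_⟩⟩
    rw [Finset.mem_image]
    refine ⟨s, ?_, rfl⟩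
    rw [hS, Finset.mem_filter]
    exact ⟨Finset.mem_univ _, by omega⟩
  rw [h6] at h5
  have h7 : (2 : ℝ) * N0 A ≤ g.totalDegree * (g.totalDegree + p) := by
    have : 2 * N0 A ≤ g.totalDegree * (g.totalDegree + p) := h5
    exact_mod_cast this
  have h8 : (g.totalDegree : ℝ) * (p - g.totalDegree) ≤ N0 A + N1 k A := by
    rw [hcard] at hgS
    have h9 : ((g.totalDegree * (2 * D + 3 - g.totalDegree) : ℕ) : ℝ) ≤ ((N0 A + N1 k A : ℕ) : ℝ) := by
      exact_mod_cast hgS
    rw [Nat.cast_mul, Nat.cast_sub (by omega)] at h9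
    push_cast at h9
    rw [hpD]
    exact h9
  exact arith_final hkR hpR hn1 hn2 hN1 h1 h2 h3 (Nat.cast_nonneg g.totalDegree)
    (by
      have : 2 * g.totalDegree < p := by omega
      exact_mod_cast this) h8 h7

theorem main (k : ℕ) (hk : 5 ≤ k) (p : ℕ) (hp : p.Prime) (hp0 : 1000 * k ^ 2 ≤ p)
    (A : Set (Fin 2 → ZMod p))
    (hA : ∀ a b c : ZMod p, (a ≠ 0 ∨ b ≠ 0) →
      (A ∩ {v : Fin 2 → ZMod p | a * v 0 + b * v 1 = c}).ncard ≤ k) :
    (A.ncard : ℝ) ≤ ((k : ℝ) - 1 - 1 / (30 * k)) * p := by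
  classical
  have : Fact p.Prime := ⟨hp⟩
  by_contra hcon
  rw [not_le] at hcon
  obtain ⟨x, hx⟩ : ∃ x : ℝ, x = ((k : ℝ) - 1 - 1 / (30 * k)) * p := ⟨_, rfl⟩
  have hkR : (5 : ℝ) ≤ k := by exact_mod_cast hk
  have hx0 : 0 ≤ x := by
    rw [hx]
    have h5 : 1 / (30 * (k : ℝ)) ≤ 1 / 150 := by
      apply one_div_le_one_div_of_le <;> linarith
    exact mul_nonneg (by linarith) (Nat.cast_nonneg _)
  rw [← hx] at hcon
  have hA1 : Bdd p k A.toFinset := by
    intro a b c hab
    have h1 := hA a b c hab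
    rw [Set.ncard_eq_toFinset_card'] at h1
    refine le_trans (Finset.card_le_card ?_) h1
    intro v hv
    rw [Finset.mem_filter, Set.mem_toFinset] at hv
    rw [Set.mem_toFinset]
    exact ⟨hv.1, hv.2⟩
  rw [Set.ncard_eq_toFinset_card'] at hcon
  have h2 : ⌊x⌋₊ + 1 ≤ A.toFinset.card := by
    have h3 : (⌊x⌋₊ : ℝ) < A.toFinset.card := (Nat.floor_le hx0).trans_lt hcon
    exact_mod_cast h3
  obtain ⟨A', hA', hA'c⟩ := Finset.exists_subset_card_eq h2
  refine main_aux k hk p hp hp0 A' ?_ ?_ ?_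
  · intro a b c hab
    exact (Finset.card_le_card (Finset.filter_subset_filter _ hA')).trans (hA1 a b c hab)
  · rw [hA'c, ← hx]
    push_cast
    exact Nat.lt_floor_add_one x
  · rw [hA'c, ← hx]
    push_cast
    have := Nat.floor_le hx0
    linarith

end KB30
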