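import Pool.Agent.W_3ac1bb_h30.LineRes

set_option autoImplicit false

namespace KB30

open MvPolynomial

variable {K : Type} [Field K]

/-- PROOF: write `f ~ = lineHom μ c f`. From the identity and `lineHom_lin`: `α ~ j1 ~ + β ~ j2 ~ = C (R.eval c)` is a
nonzero constant, so `P ~ = A j1 ~ + B j2 ~` for some `A, B : Polynomial K`; replace `B` by `B %ₘ`-remainder modulo `j1 ~`
(`Polynomial.mod`, `j1 ~ ≠ 0` as its degree is `≥ 1`): `deg B < deg j1 ~ = deg j1 ≤ a`. Then `A j1 ~ = P ~ - B j2 ~` has degree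
`≤ 2a - 1` (`natDegree_lineHom_le`), so `deg A ≤ 2a - 1 - deg j1` (if `A ≠ 0`). Put `α' = lift0 A`, `β' = lift0 B`;
`P - α' j1 - β' j2` has total degree `≤ 2a - 1 = (2a-2) + 1` and restricts to zero: `line_div`. -/
theorem reg_step {j1 j2 : MP K} {a : ℕ} (ha1 : j1 ∈ Q K a) (ha2 : j2 ∈ Q K a) (μ c : K)
    (hdeg : (lineHom μ c j1).natDegree = j1.totalDegree) (hpos : 1 ≤ j1.totalDegree)
    {R : Polynomial K} (hR : R.eval c ≠ 0) {α β : MP K}
    (hid : Polynomial.aeval (lin μ) R = α * j1 + β * j2) {P : MP K} (hP : P ∈ Q K (2 * a - 1)) :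
    ∃ α' β' P' : MP K, P' ∈ Q K (2 * a - 2) ∧
      P = α' * j1 + β' * j2 + (lin μ - C c) * P' := by
  rw [mem_restrictTotalDegree] at ha1 ha2 hP
  have ha : 1 ≤ a := le_trans hpos ha1
  set L := lineHom μ c with hL
  -- the identity on the line
  have h1 : Polynomial.C (R.eval c) = L α * L j1 + L β * L j2 := by
    have h2 : L (Polynomial.aeval (lin μ) R) = Polynomial.C (R.eval c) := by
      have h2a : L (Polynomial.aeval (lin μ) R) = Polynomial.aeval (L (lin μ)) R := by
        rw [Polynomial.aeval_algHom_apply]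
      rw [h2a, hL, lineHom_lin]
      exact (Polynomial.aeval_algebraMap_apply (Polynomial K) c R)
    rw [← h2, hid, map_add, map_mul, map_mul]
  have h3 : (1 : Polynomial K) = Polynomial.C (R.eval c)⁻¹ * (L α * L j1 + L β * L j2) := by
    rw [← h1, ← Polynomial.C_mul, inv_mul_cancel₀ hR, Polynomial.C_1]
  have hj0 : L j1 ≠ 0 := by
    intro h0
    rw [h0, Polynomial.natDegree_zero] at hdeg
    omega
  set A0 : Polynomial K := Polynomial.C (R.eval c)⁻¹ * L P * L α with hA0
  set B0 : Polynomial K := Polynomial.C (R.eval c)⁻¹ * L P * L β with hB0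
  set B : Polynomial K := B0 % L j1 with hB
  set A : Polynomial K := A0 + (B0 / L j1) * L j2 with hA
  have hLP : L P = A * L j1 + B * L j2 := by
    have h4 : B0 = L j1 * (B0 / L j1) + B := (EuclideanDomain.div_add_mod B0 (L j1)).symm
    have h5 : L P = A0 * L j1 + B0 * L j2 := by
      calc L P = L P * 1 := (mul_one _).symm
        _ = L P * (Polynomial.C (R.eval c)⁻¹ * (L α * L j1 + L β * L j2)) := by rw [← h3]
        _ = A0 * L j1 + B0 * L j2 := by rw [hA0, hB0]; ring
    rw [h5, hA]
    conv_lhs => rw [h4]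
    ring
  have hBdeg : B.natDegree < (L j1).natDegree := by
    rw [hB]
    exact Polynomial.natDegree_mod_lt B0 (by rw [hdeg]; omega)
  have hj2 : (L j2).natDegree ≤ a := le_trans (natDegree_lineHom_le μ c j2) ha2
  have hPdeg : (L P).natDegree ≤ 2 * a - 1 := le_trans (natDegree_lineHom_le μ c P) hP
  have hBj2 : (B * L j2).natDegree ≤ 2 * a - 1 := by
    refine le_trans Polynomial.natDegree_mul_le ?_
    rw [hdeg] at hBdeg
    omega
  have hAj1 : (A * L j1).natDegree ≤ 2 * a - 1 := by
    have h6 : A * L j1 = L P - B * L j2 := by rw [hLP]; ring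
    rw [h6]
    refine le_trans (Polynomial.natDegree_sub_le _ _) ?_
    exact max_le hPdeg hBj2
  have hα : ((lift0 A : MP K) * j1).totalDegree ≤ 2 * a - 1 := by
    by_cases hA00 : A = 0
    · rw [hA00, map_zero, zero_mul, totalDegree_zero]
      exact Nat.zero_le _
    · refine le_trans (totalDegree_mul _ _) ?_
      have h7 := totalDegree_lift0_le (K := K) A
      rw [Polynomial.natDegree_mul hA00 hj0, hdeg] at hAj1
      omega
  have hβ : ((lift0 B : MP K) * j2).totalDegree ≤ 2 * a - 1 := by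
    refine le_trans (totalDegree_mul _ _) ?_
    have h7 := totalDegree_lift0_le (K := K) B
    rw [hdeg] at hBdeg
    omega
  have hD : P - (lift0 A * j1 + lift0 B * j2) ∈ Q K (2 * a - 2 + 1) := by
    rw [mem_restrictTotalDegree]
    have h8 : 2 * a - 2 + 1 = 2 * a - 1 := by omega
    rw [h8]
    refine le_trans (totalDegree_sub _ _) (max_le hP ?_)
    exact le_trans (totalDegree_add _ _) (max_le hα hβ)
  have h0 : lineHom μ c (P - (lift0 A * j1 + lift0 B * j2)) = 0 := by
    rw [map_sub, map_add, map_mul, map_mul, lineHom_lift0, lineHom_lift0, ← hL, hLP]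
    ring
  obtain ⟨P', hP', hPe⟩ := line_div μ c _ _ hD h0
  refine ⟨lift0 A, lift0 B, P', hP', ?_⟩
  rw [← hPe]
  ring

end KB30
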