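import Pool.Agent.W_3ac1bb_h30.LineRes

set_option autoImplicit false

namespace KB30

open MvPolynomial

variable {K : Type} [Field K]

theorem TopDir_coeff (μ c : K) (n k d : ℕ) (h : n + k ≤ d) :
    (Polynomial.X ^ n * (Polynomial.C μ * Polynomial.X + Polynomial.C c) ^ k :
      Polynomial K).coeff d = if n + k = d then μ ^ k else 0 := by
  have hdeg : (Polynomial.C μ * Polynomial.X + Polynomial.C c : Polynomial K).natDegree ≤ 1 :=
    Polynomial.natDegree_linear_le
  split_ifs with h1
  · subst h1
    rw [add_comm n k, Polynomial.coeff_X_pow_mul]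
    have h2 := Polynomial.coeff_pow_of_natDegree_le (m := k) hdeg
    rw [mul_one] at h2
    rw [h2]
    simp
  · apply Polynomial.coeff_eq_zero_of_natDegree_lt
    refine lt_of_le_of_lt (Polynomial.natDegree_mul_le_of_le (Polynomial.natDegree_X_pow_le n)
      (Polynomial.natDegree_pow_le_of_le k hdeg)) ?_
    omega

theorem TopDir_lineHom (μ c : K) (j : MP K) : lineHom μ c j =
    ∑ m ∈ j.support, Polynomial.C (coeff m j) * (Polynomial.X ^ m 0 *
      (Polynomial.C μ * Polynomial.X + Polynomial.C c) ^ m 1) := by
  rw [lineHom, aeval_def, eval₂_eq']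
  refine Finset.sum_congr rfl fun m _ => ?_
  rw [Fin.prod_univ_two]
  rfl

variable [Infinite K]

/-- A direction which is not asymptotic. PROOF: `d = totalDegree j`, `H = homogeneousComponent d j ≠ 0`.
The coefficient of `X ^ d` in `lineHom μ c j` is `eval ![1, μ] H` (only the monomials of degree `d`
contribute; `X ^ a (μ X + c) ^ b` has `X ^ (a+b)`-coefficient `μ ^ b`). If `eval ![1, μ] H = 0` for all `μ`, then
`X 0 * H` vanishes at all points (`H (x, y) = x ^ d H (1, y / x)` for `x ≠ 0`), so it is zero
(`MvPolynomial.funext`), contradiction. -/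
theorem exists_dir (j : MP K) (hj : j ≠ 0) :
    ∃ μ : K, ∀ c : K, (lineHom μ c j).natDegree = j.totalDegree := by
  have hsup : j.support.Nonempty := support_nonempty.2 hj
  obtain ⟨m0, hm0, hdeg0⟩ := Finset.exists_mem_eq_sup j.support hsup
    fun s => s.sum fun _ e => e
  have hd : ∀ m : Fin 2 →₀ ℕ, (m.sum fun _ e => e) = m 0 + m 1 := by
    intro m
    rw [Finsupp.sum_fintype _ _ fun _ => rfl, Fin.sum_univ_two]
  have htd : j.totalDegree = m0 0 + m0 1 := by
    rw [← hd]
    exact hdeg0
  have hle : ∀ m ∈ j.support, m 0 + m 1 ≤ j.totalDegree := by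
    intro m hm
    rw [← hd]
    exact le_totalDegree hm
  let p : Polynomial K := ∑ m ∈ j.support,
    if m 0 + m 1 = j.totalDegree then Polynomial.monomial (m 1) (coeff m j) else 0
  have hp : p.coeff (m0 1) = coeff m0 j := by
    show (∑ m ∈ j.support, if m 0 + m 1 = j.totalDegree then
      Polynomial.monomial (m 1) (coeff m j) else 0).coeff (m0 1) = _
    rw [Polynomial.finsetSum_coeff, Finset.sum_eq_single m0]
    · rw [if_pos htd.symm, Polynomial.coeff_monomial, if_pos rfl]
    · intro m _ hne
      split_ifs with h1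
      · rw [Polynomial.coeff_monomial, if_neg]
        intro h2
        apply hne
        ext i
        fin_cases i
        · show m 0 = m0 0
          omega
        · exact h2
      · exact Polynomial.coeff_zero _
    · intro h
      exact absurd hm0 h
  have hp0 : p ≠ 0 := by
    intro h
    rw [h, Polynomial.coeff_zero] at hp
    exact mem_support_iff.1 hm0 hp.symm
  have hμ : ∃ μ : K, p.eval μ ≠ 0 := by
    by_contra hcon
    push Not at hcon
    exact hp0 (Polynomial.funext fun r => by rw [hcon r, Polynomial.eval_zero])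
  obtain ⟨μ, hμ⟩ := hμ
  refine ⟨μ, fun c => le_antisymm (natDegree_lineHom_le μ c j) ?_⟩
  apply Polynomial.le_natDegree_of_ne_zero
  have hco : (lineHom μ c j).coeff j.totalDegree = p.eval μ := by
    show _ = Polynomial.eval μ (∑ m ∈ j.support, if m 0 + m 1 = j.totalDegree then
      Polynomial.monomial (m 1) (coeff m j) else 0)
    rw [TopDir_lineHom, Polynomial.finsetSum_coeff, Polynomial.eval_finset_sum]
    refine Finset.sum_congr rfl fun m hm => ?_
    rw [Polynomial.coeff_C_mul, TopDir_coeff μ c _ _ _ (hle m hm)]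
    split_ifs with h1
    · rw [Polynomial.eval_monomial]
    · rw [mul_zero, Polynomial.eval_zero]
  rw [hco]
  exact hμ

end KB30
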