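import Pool.Agent.W_3ac1bb_h30.BezRho
import Pool.Agent.W_3ac1bb_h30.TopDir
import Pool.Agent.W_3ac1bb_h30.RegStep
import Pool.Agent.W_3ac1bb_h30.Interp

set_option autoImplicit false

namespace KB30

open MvPolynomial

variable {K : Type} [Field K] [Infinite K]

theorem Reg_evZ_mul (Z : Finset (Pt K)) (P R : MP K) : evZ Z (P * R) = evZ Z P * evZ Z R := by
  ext z
  simp

theorem Reg_X_mem (i : Fin 2) {n : ℕ} {P : MP K} (hP : P ∈ Q K n) : X i * P ∈ Q K (n + 1) := by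
  rw [add_comm]
  exact mul_mem_Q (mem_Q.2 (totalDegree_X i).le) hP

/-- A linear algebra step. PROOF: `FF = map (evZ Z) (Q n)`, `FF' = map (evZ Z) (Q (n+1))`. Every element of `FF'` is
`(evZ Z l) * f` with `f ∈ FF`, so `FF' ≤ map (multiplication by evZ Z l) FF`, hence
`finrank FF' ≤ finrank FF` and `FF = FF'`. `FF` is closed under multiplication by the functions `X 0`, `X 1` (it
goes to `FF'`), contains `1`, so `evZ Z P ∈ FF` for all `P` (`MvPolynomial.induction_on`), and it is everything by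
`eval_surj`. -/
theorem reg_span (Z : Finset (Pt K)) (n : ℕ) (l : MP K)
    (h : ∀ P ∈ Q K (n + 1), ∃ P' ∈ Q K n, evZ Z P = evZ Z (l * P')) :
    (Q K n).map (evZ Z) = ⊤ := by
  have h1 : (Q K n).map (evZ Z) ≤ (Q K (n + 1)).map (evZ Z) :=
    Submodule.map_mono (Q_mono (Nat.le_succ n))
  have h2 : (Q K (n + 1)).map (evZ Z) ≤
      ((Q K n).map (evZ Z)).map (LinearMap.mulLeft K (evZ Z l)) := by
    rintro _ ⟨P, hP, rfl⟩
    obtain ⟨P', hP', h3⟩ := h P hP
    refine ⟨evZ Z P', ⟨P', hP', rfl⟩, ?_⟩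
    rw [LinearMap.mulLeft_apply, h3, Reg_evZ_mul]
  have h3 : Module.finrank K ↥((Q K (n + 1)).map (evZ Z)) ≤
      Module.finrank K ↥((Q K n).map (evZ Z)) :=
    (Submodule.finrank_mono h2).trans (Submodule.finrank_map_le _ _)
  have h4 : (Q K n).map (evZ Z) = (Q K (n + 1)).map (evZ Z) :=
    Submodule.eq_of_le_of_finrank_le h1 h3
  have h5 : ∀ P : MP K, evZ Z P ∈ (Q K n).map (evZ Z) := by
    intro P
    induction P using MvPolynomial.induction_on with
    | C a => exact ⟨C a, mem_Q.2 (by rw [totalDegree_C]; exact Nat.zero_le _), rfl⟩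
    | add P R hP hR => rw [map_add]; exact Submodule.add_mem _ hP hR
    | mul_X P i hP =>
      obtain ⟨R, hR, hR2⟩ := hP
      rw [h4]
      refine ⟨X i * R, Reg_X_mem i hR, ?_⟩
      rw [Reg_evZ_mul, Reg_evZ_mul, hR2, mul_comm]
  rw [eq_top_iff]
  intro φ _
  classical
  obtain ⟨P, hP⟩ := eval_surj Z (fun z => if hz : z ∈ Z then φ ⟨z, hz⟩ else 0)
  have h6 : evZ Z P = φ := by
    ext z
    rw [evZ_apply, hP z.1 z.2, dif_pos z.2]
  rw [← h6]
  exact h5 P

/-- Regularity of a complete intersection. PROOF: suppose `Z` is not empty. Then `j1` vanishes somewhere and is not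
zero, so `1 ≤ totalDegree j1 ≤ a`. `exists_dir` gives `μ`; `bez_rho` gives `R, α, β`; `K` is infinite, so there is `c` with
`R.eval c ≠ 0` (`Polynomial.funext`-like, finitely many roots). `reg_step` and `reg_span` (`n = 2a - 2`, `l = lin μ - C c`): the map
`Q (2a-2) → K ^ Z` is onto. Take `P` with `evZ Z P = w⁻¹` at one point `z0` and `0` at the others: `hsum` gives `1 = 0`. -/
theorem regularity {j1 j2 : MP K} (h1 : j1 ≠ 0) (h2 : j2 ≠ 0) (hc : Cop j1 j2) {a : ℕ}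
    (ha1 : j1 ∈ Q K a) (ha2 : j2 ∈ Q K a) (Z : Finset (Pt K)) (hZ1 : ∀ z ∈ Z, eval z j1 = 0)
    (hZ2 : ∀ z ∈ Z, eval z j2 = 0) (w : Pt K → K) (hw : ∀ z ∈ Z, w z ≠ 0)
    (hsum : ∀ P ∈ Q K (2 * a - 2), ∑ z ∈ Z, w z * eval z P = 0) : Z = ∅ := by
  classical
  by_contra hne
  obtain ⟨z0, hz0⟩ := Finset.nonempty_iff_ne_empty.2 hne
  have hpos : 1 ≤ j1.totalDegree := by
    by_contra hlt
    have h3 : j1.totalDegree = 0 := by omega
    rw [totalDegree_eq_zero_iff_eq_C] at h3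
    have h4 := hZ1 z0 hz0
    rw [h3, eval_C] at h4
    rw [h4, C_0] at h3
    exact h1 h3
  have ha : 1 ≤ a := hpos.trans (mem_Q.1 ha1)
  obtain ⟨μ, hμ⟩ := exists_dir j1 h1
  obtain ⟨R, hR, α, β, hid⟩ := bez_rho h1 h2 hc μ
  obtain ⟨c, hc0⟩ : ∃ c : K, R.eval c ≠ 0 := by
    by_contra hall
    push Not at hall
    exact hR (Polynomial.funext fun c => by rw [hall c, Polynomial.eval_zero])
  have htop : (Q K (2 * a - 2)).map (evZ Z) = ⊤ := by
    refine reg_span Z (2 * a - 2) (lin μ - C c) fun P hP => ?_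
    have h5 : 2 * a - 2 + 1 = 2 * a - 1 := by omega
    rw [h5] at hP
    obtain ⟨α', β', P', hP', hPeq⟩ := reg_step ha1 ha2 μ c (hμ c) hpos hc0 hid hP
    refine ⟨P', hP', ?_⟩
    ext z
    rw [evZ_apply, evZ_apply, hPeq, map_add, map_add, map_mul, map_mul, hZ1 z.1 z.2, hZ2 z.1 z.2,
      mul_zero, mul_zero, zero_add, zero_add]
  have h6 : (fun z : Z => if z.1 = z0 then (w z0)⁻¹ else 0) ∈ (Q K (2 * a - 2)).map (evZ Z) := by
    rw [htop]
    exact Submodule.mem_top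
  obtain ⟨P, hP, hPe⟩ := h6
  have h7 := hsum P hP
  have h8 : ∀ z ∈ Z, eval z P = if z = z0 then (w z0)⁻¹ else 0 := by
    intro z hz
    exact congrFun hPe ⟨z, hz⟩
  rw [Finset.sum_congr rfl fun z hz => by rw [h8 z hz]] at h7
  rw [Finset.sum_eq_single z0] at h7
  · rw [if_pos rfl, mul_inv_cancel₀ (hw z0 hz0)] at h7
    exact one_ne_zero h7
  · intro z _ hz
    rw [if_neg hz, mul_zero]
  · intro h
    exact absurd hz0 h

end KB30
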