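import Pool.Agent.W_3ac1bb_h30.Bez
import Pool.Agent.W_3ac1bb_h30.Frob

set_option autoImplicit false

/-! If `q` divides `frob p q`, then all `F_p`-points of `q` are singular. -/

namespace KB30

open MvPolynomial

variable {K : Type} [Field K]

theorem natDegree_lineAt_le (z v : Pt K) (P : MP K) : (lineAt z v P).natDegree ≤ P.totalDegree := by
  have h := MvPolynomial.aeval_natDegree_le (m := P.totalDegree) (n := 1) P le_rfl
    (fun i => Polynomial.C (z i) + Polynomial.C (v i) * Polynomial.X) (fun i => by
      refine (Polynomial.natDegree_add_le _ _).trans (max_le ?_ ?_)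
      · rw [Polynomial.natDegree_C]
        exact Nat.zero_le _
      · exact (Polynomial.natDegree_C_mul_le _ _).trans Polynomial.natDegree_X_le)
  rwa [mul_one] at h

theorem lineAt_eval (z v : Pt K) (P : MP K) (s : K) :
    (lineAt z v P).eval s = eval (fun i => z i + s * v i) P := by
  have h : (Polynomial.aeval s).comp (lineAt z v) =
      (aeval (fun i => z i + s * v i) : MP K →ₐ[K] K) := by
    refine MvPolynomial.algHom_ext fun i => ?_
    rw [AlgHom.comp_apply, lineAt, aeval_X, aeval_X, map_add, map_mul, Polynomial.aeval_C,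
      Polynomial.aeval_C, Polynomial.aeval_X, mul_comm]
    rfl
  have h2 := congrArg (fun f : MP K →ₐ[K] K => f P) h
  simpa [Polynomial.aeval_def, Polynomial.eval₂_id, MvPolynomial.aeval_def, MvPolynomial.eval₂_id]
    using h2

/-- chain rule -/
theorem lineAt_derivative (z v : Pt K) (P : MP K) :
    Polynomial.derivative (lineAt z v P) =
      Polynomial.C (v 0) * lineAt z v (pderiv 0 P) + Polynomial.C (v 1) * lineAt z v (pderiv 1 P) := by
  induction P using MvPolynomial.induction_on with
  | C a => simp [lineAt]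
  | add P Q hP hQ =>
    rw [map_add, Polynomial.derivative_add, hP, hQ, map_add, map_add, map_add, map_add]
    ring
  | mul_X P i hP =>
    have hX : ∀ j : Fin 2, lineAt z v (X j) =
        Polynomial.C (z j) + Polynomial.C (v j) * Polynomial.X := fun j => by simp [lineAt]
    have hd : ∀ j : Fin 2, Polynomial.derivative (lineAt z v (X j)) = Polynomial.C (v j) := by
      intro j
      rw [hX]
      simp
    rw [map_mul, Polynomial.derivative_mul, hP, hd, pderiv_mul, pderiv_mul, map_add, map_add,
      map_mul, map_mul, map_mul, map_mul]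
    fin_cases i
    · have h1 : pderiv 0 (X 0 : MP K) = 1 := pderiv_X_self 0
      have h2 : pderiv 1 (X 0 : MP K) = 0 := pderiv_X_of_ne (by decide)
      simp only [Fin.zero_eta, h1, h2, map_one, map_zero]
      ring
    · have h1 : pderiv 0 (X 1 : MP K) = 0 := pderiv_X_of_ne (by decide)
      have h2 : pderiv 1 (X 1 : MP K) = 1 := pderiv_X_self 1
      simp only [Fin.mk_one, h1, h2, map_one, map_zero]
      ring

/-- If `q` vanishes on the line `z + s v`, then it has degree at most one. PROOF: otherwise `q` does not divide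
the polynomial `f = C (v 1) * (X 0 - C (z 0)) - C (v 0) * (X 1 - C (z 1))` of total degree `≤ 1`, `f ≠ 0`; the points
`z + s v`, `s` in a finite subset `S` of `K` with more than `totalDegree q` elements, contradict `bez1`. -/
theorem line_not_vanish [Infinite K] {q : MP K} (hq : Irreducible q) (h2 : 2 ≤ q.totalDegree)
    (z v : Pt K) (hv : v ≠ 0) : lineAt z v q ≠ 0 := by
  intro hq0
  set f : MP K := C (v 1) * (X 0 - C (z 0)) - C (v 0) * (X 1 - C (z 1)) with hf
  have hf0 : f ≠ 0 := by
    intro h
    apply hv
    have h1 : ∀ x : Pt K, v 1 * (x 0 - z 0) - v 0 * (x 1 - z 1) = 0 := by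
      intro x
      have h2 := congrArg (eval x) h
      rw [hf] at h2
      simpa using h2
    have e0 := h1 ![z 0 + 1, z 1]
    have e1 := h1 ![z 0, z 1 + 1]
    simp at e0 e1
    funext i
    fin_cases i
    · exact e1
    · exact e0
  have hfd : f.totalDegree ≤ 1 := by
    have h1 : ∀ (i : Fin 2) (a b : K), (C a * (X i - C b) : MP K).totalDegree ≤ 1 := by
      intro i a b
      refine (totalDegree_mul _ _).trans ?_
      rw [totalDegree_C, zero_add]
      refine (totalDegree_sub _ _).trans (max_le ?_ ?_)
      · rw [totalDegree_X]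
      · rw [totalDegree_C]
        exact Nat.zero_le _
    exact (totalDegree_sub _ _).trans (max_le (h1 _ _ _) (h1 _ _ _))
  have hqf : ¬ q ∣ f := by
    rintro ⟨g, hg⟩
    have hg0 : g ≠ 0 := by
      rintro rfl
      rw [mul_zero] at hg
      exact hf0 hg
    have h1 := totalDegree_mul_of_isDomain hq.ne_zero hg0
    rw [← hg] at h1
    omega
  obtain ⟨S, hS⟩ := Infinite.exists_subset_card_eq K (q.totalDegree + 1)
  have hinj : Function.Injective (fun (s : K) (i : Fin 2) => z i + s * v i) := by
    intro s t hst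
    obtain ⟨i, hi⟩ := Function.ne_iff.1 hv
    have h1 := congrFun hst i
    simp only at h1
    exact mul_right_cancel₀ hi (add_left_cancel h1)
  have h2 := bez1 hq hf0 hqf (S.map ⟨_, hinj⟩) (by
    intro x hx
    obtain ⟨s, _, rfl⟩ := Finset.mem_map.1 hx
    show eval (fun i => z i + s * v i) q = 0
    rw [← lineAt_eval, hq0, Polynomial.eval_zero]) (by
    intro x hx
    obtain ⟨s, _, rfl⟩ := Finset.mem_map.1 hx
    show eval (fun i => z i + s * v i) f = 0
    rw [hf]
    simp
    ring)
  rw [Finset.card_map, hS] at h2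
  have h3 := Nat.mul_le_mul_left q.totalDegree hfd
  omega

open scoped Classical in
theorem Smooth_rm (G : Polynomial K) : G.rootMultiplicity 0 ≤ G.natDegree := by
  rw [← Polynomial.count_roots]
  exact (Multiset.count_le_card _ _).trans (Polynomial.card_roots' _)

/-- PROOF: `lineAt z v (X i ^ p - X i) = C (v i ^ p) * X ^ p - C (v i) * X` (as `z i ^ p = z i`, characteristic `p`:
`add_pow_char`), so with `G = lineAt z v q`: `G * lineAt z v w = lineAt z v (frob p q) = - X * G' + X ^ p * Ψ`. Let
`G = X ^ e * G1`, `G1.eval 0 ≠ 0` (`e = rootMultiplicity 0 G ≤ natDegree G < p`). Compare the coefficients of `X ^ e`: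
`G1(0) w(z) = - e G1(0)`. -/
theorem order_eq {p : ℕ} (hp : p.Prime) [CharP K p] {q w : MP K} (hw : frob p q = q * w)
    (h2 : q.totalDegree < p) (z v : Pt K) (hz : ∀ i, z i ^ p = z i) (hG : lineAt z v q ≠ 0) :
    eval z w = - (((lineAt z v q).rootMultiplicity 0 : ℕ) : K) := by
  have hX : ∀ j : Fin 2, lineAt z v (X j) =
      Polynomial.C (z j) + Polynomial.C (v j) * Polynomial.X := fun j => by simp [lineAt]
  have : Fact p.Prime := ⟨hp⟩
  have : CharP (Polynomial K) p := inferInstance
  have hXp : ∀ j : Fin 2, lineAt z v (X j ^ p - X j) =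
      Polynomial.C (v j ^ p) * Polynomial.X ^ p - Polynomial.C (v j) * Polynomial.X := by
    intro j
    rw [map_sub, map_pow, hX, add_pow_char, ← Polynomial.C_pow, hz j, mul_pow,
      ← Polynomial.C_pow]
    ring
  obtain ⟨G1, hG1, hG1d⟩ := Polynomial.exists_eq_pow_rootMultiplicity_mul_and_not_dvd
    (lineAt z v q) hG 0
  set e := (lineAt z v q).rootMultiplicity 0 with he
  rw [Polynomial.C_0, sub_zero] at hG1 hG1d
  have hep : e < p := by
    refine lt_of_le_of_lt ?_ h2
    exact (Smooth_rm _).trans (natDegree_lineAt_le z v q)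
  have hder := lineAt_derivative z v q
  have hmain : lineAt z v (frob p q) = lineAt z v q * lineAt z v w := by
    rw [hw, map_mul]
  have hfrob : lineAt z v (frob p q) = - (Polynomial.X * Polynomial.derivative (lineAt z v q)) +
      Polynomial.X ^ p * (Polynomial.C (v 0 ^ p) * lineAt z v (pderiv 0 q) +
        Polynomial.C (v 1 ^ p) * lineAt z v (pderiv 1 q)) := by
    rw [frob, map_add, map_mul, map_mul, hXp, hXp, hder]
    ring
  set Ψ := Polynomial.C (v 0 ^ p) * lineAt z v (pderiv 0 q) +
        Polynomial.C (v 1 ^ p) * lineAt z v (pderiv 1 q) with hΨ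
  have hXd : Polynomial.X * Polynomial.derivative (lineAt z v q) =
      Polynomial.X ^ e * ((e : Polynomial K) * G1 + Polynomial.X * Polynomial.derivative G1) := by
    rw [hG1, Polynomial.derivative_mul, Polynomial.derivative_X_pow]
    rcases Nat.eq_zero_or_pos e with h0 | h0
    · rw [h0]
      simp
    · obtain ⟨d, hd⟩ : ∃ d, e = d + 1 := ⟨e - 1, by omega⟩
      rw [hd]
      simp only [Nat.add_sub_cancel]
      rw [← Polynomial.C_eq_natCast]
      ring
  have hpe : (Polynomial.X : Polynomial K) ^ p = Polynomial.X ^ e *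
      (Polynomial.X ^ (p - e - 1) * Polynomial.X) := by
    rw [← pow_succ, ← pow_add]
    congr 1
    omega
  have hcan : (Polynomial.X : Polynomial K) ^ e * (G1 * lineAt z v w) =
      Polynomial.X ^ e * (- ((e : Polynomial K) * G1 + Polynomial.X * Polynomial.derivative G1) +
        Polynomial.X ^ (p - e - 1) * Polynomial.X * Ψ) := by
    rw [← mul_assoc, ← hG1, ← hmain, hfrob, hXd, hpe]
    ring
  have hcan2 := mul_left_cancel₀ (pow_ne_zero e Polynomial.X_ne_zero) hcan
  have hev := congrArg (Polynomial.eval 0) hcan2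
  simp only [Polynomial.eval_mul, Polynomial.eval_add, Polynomial.eval_neg, Polynomial.eval_X,
    zero_mul, mul_zero, add_zero, Polynomial.eval_natCast] at hev
  have hG10 : G1.eval 0 ≠ 0 := by
    intro h
    exact hG1d (Polynomial.X_dvd_iff.2 (by rw [Polynomial.coeff_zero_eq_eval_zero]; exact h))
  have hw0 : (lineAt z v w).eval 0 = eval z w := by
    rw [lineAt_eval]
    simp
  rw [hw0] at hev
  have h3 : G1.eval 0 * (eval z w + (e : K)) = 0 := by
    linear_combination hev
  rcases mul_eq_zero.1 h3 with h | h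
  · exact absurd h hG10
  · exact eq_neg_of_add_eq_zero_left h

/-- PROOF. Suppose the gradient `(q_0, q_1)` at `z` is not zero. `v = (q_1, - q_0)` is a tangent direction, and some `v'`
(a coordinate vector) has `dirD v' z q ≠ 0`. `line_not_vanish`, `order_eq` for both: `rootMultiplicity` for `v'` is `1` (value
`0`, derivative not `0`), for `v` it is `e ≥ 2` (value and derivative zero; `Polynomial.one_lt_rootMultiplicity_iff_isRoot` or similar),
`e ≤ natDegree ≤ totalDegree q < p`. So `(e : K) = 1`, `p ∣ e - 1`, `0 < e - 1 < p`, contradiction. -/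
theorem sing_of_dvd [Infinite K] {p : ℕ} (hp : p.Prime) [CharP K p] {q : MP K}
    (hq : Irreducible q) (h1 : 2 ≤ q.totalDegree) (h2 : q.totalDegree < p) (hd : q ∣ frob p q)
    (z : Pt K) (hz : ∀ i, z i ^ p = z i) (h0 : eval z q = 0) :
    eval z (pderiv 0 q) = 0 ∧ eval z (pderiv 1 q) = 0 := by
  obtain ⟨w, hw⟩ := hd
  by_contra hcon
  -- values and derivatives on lines
  have hval : ∀ v : Pt K, (lineAt z v q).eval 0 = 0 := by
    intro v
    rw [lineAt_eval]
    simpa using h0
  have hder : ∀ v : Pt K, (Polynomial.derivative (lineAt z v q)).eval 0 =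
      v 0 * eval z (pderiv 0 q) + v 1 * eval z (pderiv 1 q) := by
    intro v
    rw [lineAt_derivative]
    simp only [Polynomial.eval_add, Polynomial.eval_mul, Polynomial.eval_C, lineAt_eval, zero_mul,
      add_zero]
  have hrt : ∀ v : Pt K, v ≠ 0 → 0 < (lineAt z v q).rootMultiplicity 0 := fun v hv =>
    (Polynomial.rootMultiplicity_pos (line_not_vanish hq h1 z v hv)).2 (hval v)
  -- a transversal direction
  obtain ⟨v', hv', hv'd⟩ : ∃ v' : Pt K, v' ≠ 0 ∧
      v' 0 * eval z (pderiv 0 q) + v' 1 * eval z (pderiv 1 q) ≠ 0 := by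
    by_cases h : eval z (pderiv 0 q) = 0
    · refine ⟨![0, 1], fun h' => ?_, ?_⟩
      · exact one_ne_zero (congrFun h' 1)
      · have h' : eval z (pderiv 1 q) ≠ 0 := fun h' => hcon ⟨h, h'⟩
        simpa using h'
    · refine ⟨![1, 0], fun h' => ?_, ?_⟩
      · exact one_ne_zero (congrFun h' 0)
      · simpa using h
  have he' : (lineAt z v' q).rootMultiplicity 0 = 1 := by
    have h3 := hrt v' hv'
    have h4 : ¬ 1 < (lineAt z v' q).rootMultiplicity 0 := by
      rw [Polynomial.one_lt_rootMultiplicity_iff_isRoot (line_not_vanish hq h1 z v' hv')]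
      rintro ⟨_, h5⟩
      rw [Polynomial.IsRoot, hder] at h5
      exact hv'd h5
    omega
  have hw1 := order_eq hp hw h2 z v' hz (line_not_vanish hq h1 z v' hv')
  rw [he'] at hw1
  -- the tangent direction
  set v : Pt K := ![eval z (pderiv 1 q), - eval z (pderiv 0 q)] with hvdef
  have hv : v ≠ 0 := by
    intro h
    apply hcon
    have e0 := congrFun h 0
    have e1 := congrFun h 1
    rw [hvdef] at e0 e1
    simp at e0 e1
    exact ⟨e1, e0⟩
  have he : 1 < (lineAt z v q).rootMultiplicity 0 := by
    rw [Polynomial.one_lt_rootMultiplicity_iff_isRoot (line_not_vanish hq h1 z v hv)]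
    refine ⟨hval v, ?_⟩
    rw [Polynomial.IsRoot, hder, hvdef]
    simp
    ring
  have hw2 := order_eq hp hw h2 z v hz (line_not_vanish hq h1 z v hv)
  have hlt : (lineAt z v q).rootMultiplicity 0 < p := by
    refine lt_of_le_of_lt ?_ h2
    exact (Smooth_rm _).trans (natDegree_lineAt_le z v q)
  obtain ⟨d, hd⟩ : ∃ d, (lineAt z v q).rootMultiplicity 0 = d + 1 :=
    ⟨(lineAt z v q).rootMultiplicity 0 - 1, by omega⟩
  rw [hw1, hd] at hw2
  push_cast at hw2
  have hd0 : (d : K) = 0 := by linear_combination hw2
  have h5 := Nat.le_of_dvd (by omega) ((CharP.cast_eq_zero_iff K p d).1 hd0)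
  omega

end KB30
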